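import Pool.Agent.P.MP_5d883e_nt.Local

/-! Descent on `x`-coordinates for `y^2 = x (x - 2) (x - p)`. -/

set_option autoImplicit false

namespace Pool.Agent.P.MP_5d883e_nt

open Height

theorem finite_of_descent {α : Type*} (S : Set α) (h : α → ℝ) (D : α → α) (c : ℝ)
    (hfin : ∀ B, {x | h x ≤ B}.Finite)
    (hD : ∀ s ∈ S, ∃ t ∈ S, D t = s ∧ 4 * h t - c ≤ h s) : S.Finite := by
  refine (hfin (c / 3)).subset fun s hs => ?_
  by_contra hc
  simp only [Set.mem_ofPred_eq, not_le] at hc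
  choose! g hg1 hg2 hg3 using hD
  have hT : (S ∩ {x | h x ≤ h s}).Finite := (hfin (h s)).subset Set.inter_subset_right
  have hm : Set.MapsTo g (S ∩ {x | h x ≤ h s}) (S ∩ {x | h x ≤ h s}) := fun t ht =>
    ⟨hg1 t ht.1, by
      have h1 := hg3 t ht.1
      have h2 : h t ≤ h s := ht.2
      show h (g t) ≤ h s
      linarith⟩
  have hi : Set.InjOn g (S ∩ {x | h x ≤ h s}) := fun a ha b hb e => by
    rw [← hg2 a ha.1, ← hg2 b hb.1, e]
  obtain ⟨t, ht, e⟩ := (hT.injOn_iff_bijOn_of_mapsTo hm).1 hi |>.surjOn ⟨hs, le_refl (h s)⟩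
  have h1 := hg3 t ht.1
  have h2 : h t ≤ h s := ht.2
  rw [e] at h1
  linarith

theorem height_dup (W : WeierstrassCurve ℚ) [W.IsElliptic] : ∃ c : ℝ, ∀ x : ℚ,
    4 * logHeight₁ x - c ≤ logHeight₁ ((x ^ 4 - W.b₄ * x ^ 2 - 2 * W.b₆ * x - W.b₈) /
      (4 * x ^ 3 + W.b₂ * x ^ 2 + 2 * W.b₄ * x + W.b₆)) := by
  obtain ⟨C, hC⟩ := W.abs_logHeight_addSubMap_sub_two_mul_logHeight_le
  obtain ⟨C', hC'⟩ := logHeight_sym2_ge ℚ
  refine ⟨C - 2 * C', fun x => ?_⟩
  have h1 : _ ≤ logHeight (ι := Fin 3) ![x * x, x * 1 + 1 * x, 1 * 1] :=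
    hC' (a := x) (b := 1) (c := x) (d := 1) (by simp) (by simp)
  have h2 := (abs_le.1 (hC ![x * x, x * 1 + 1 * x, 1 * 1])).1
  have e : (fun i => MvPolynomial.eval ![x * x, x * 1 + 1 * x, 1 * 1] (W.addSubMap i)) =
      ![x ^ 4 - W.b₄ * x ^ 2 - 2 * W.b₆ * x - W.b₈,
        4 * x ^ 3 + W.b₂ * x ^ 2 + 2 * W.b₄ * x + W.b₆, 0] := by
    ext i
    fin_cases i <;> simp [WeierstrassCurve.addSubMap] <;> ring
  rw [e, logHeight_cons_cons_cons_zero, ← logHeight₁_div_eq_logHeight] at h2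
  rw [← logHeight₁_eq_logHeight] at h1
  have h3 := mul_le_mul_of_nonneg_left h1 (zero_le_two (α := ℝ))
  have h4 := add_le_add h2 h3
  rw [sub_add_cancel] at h4
  linarith

theorem val_even {l : ℕ} [Fact l.Prime] {a b c s t : ℚ} (ha : a ≠ 0) (hb : b ≠ 0) (hc : c ≠ 0)
    (hs : s ≠ 0) (ht : t ≠ 0) (eb : b = a + s) (ec : c = a + t) (vs : padicValRat l s = 0)
    (vt : padicValRat l t = 0)
    (h : Even (padicValRat l a + padicValRat l b + padicValRat l c)) :
    Even (padicValRat l a) := by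
  rcases eq_or_ne (padicValRat l a) 0 with h0 | h0
  · simp [h0]
  have h1 := padicValRat.add_eq_min (p := l) (eb ▸ hb) ha hs (vs ▸ h0)
  have h2 := padicValRat.add_eq_min (p := l) (ec ▸ hc) ha ht (vt ▸ h0)
  rw [← eb, vs] at h1
  rw [← ec, vt] at h2
  rw [h1, h2] at h
  rw [Int.even_iff] at h ⊢
  omega

theorem sq_of_val {r : ℚ} (hr : r ≠ 0) (h : ∀ l : ℕ, l.Prime → Even (padicValRat l r)) :
    ∃ s : ℚ, r = s ^ 2 ∨ r = -s ^ 2 := by
  have hn : r.num.natAbs * r.den ≠ 0 :=
    mul_ne_zero (Int.natAbs_ne_zero.2 (Rat.num_ne_zero.2 hr)) r.den_nz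
  have hsq : IsSquare (r.num.natAbs * r.den) := by
    rw [← Nat.prod_factorization_pow_eq_self hn]
    refine Finset.prod_induction _ IsSquare (fun _ _ => IsSquare.mul) IsSquare.one
      fun l hl => Even.isSquare_pow ?_ _
    have hl' := Nat.prime_of_mem_primeFactors (Nat.support_factorization _ ▸ hl)
    have : Fact l.Prime := ⟨hl'⟩
    have h1 := h l hl'
    rw [padicValRat_def, padicValInt, Int.even_iff] at h1
    rw [Nat.factorization_def _ hl', padicValNat.mul (Int.natAbs_ne_zero.2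
      (Rat.num_ne_zero.2 hr)) r.den_nz, Nat.even_iff]
    omega
  obtain ⟨m, hm⟩ := hsq
  have hd : (r.den : ℚ) ≠ 0 := by exact_mod_cast r.den_nz
  have hm' : ((r.num.natAbs : ℤ) : ℚ) * r.den = m * m := by exact_mod_cast hm
  have e : r = r.num / r.den := (Rat.num_div_den r).symm
  refine ⟨m / r.den, ?_⟩
  rcases Int.natAbs_eq r.num with h1 | h1
  · left
    rw [← h1] at hm'
    rw [div_pow, sq (m : ℚ), ← hm']
    conv_lhs => rw [e]
    field_simp
  · right
    have h2 : ((r.num.natAbs : ℤ) : ℚ) = -r.num := by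
      conv_rhs => rw [h1]
      simp
    rw [h2] at hm'
    rw [div_pow, sq (m : ℚ), ← hm']
    conv_lhs => rw [e]
    field_simp

theorem int_of_sq {r : ℚ} {n : ℤ} (h : r ^ 2 = n) : ∃ v : ℤ, v ^ 2 = n := by
  obtain ⟨v, hv⟩ := Rat.isSquare_intCast_iff.1 ⟨r, by rw [← h, sq]⟩
  exact ⟨v, by rw [hv, sq]⟩

/-- Clearing denominators in a pair of conics. -/
theorem clear {a b c d e : ℤ} {r s t : ℚ} (he : e = 1 ∨ e = -1)
    (h1 : a * r ^ 2 + e * s ^ 2 = b) (h2 : c * r ^ 2 + e * t ^ 2 = d) :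
    ∃ u v w z : ℤ, IsCoprime u z ∧ a * u ^ 2 + e * v ^ 2 = b * z ^ 2 ∧
      c * u ^ 2 + e * w ^ 2 = d * z ^ 2 := by
  have hd : (r.den : ℚ) ≠ 0 := by exact_mod_cast r.den_nz
  have e1 : (r.num : ℚ) = r * r.den := (Rat.mul_den_eq_num r).symm
  have e2 : (e : ℚ) ^ 2 = 1 := by rcases he with rfl | rfl <;> norm_num
  have e3 : e ^ 2 = 1 := by exact_mod_cast e2
  obtain ⟨v, hv⟩ := int_of_sq (r := s * r.den) (n := e * (b * r.den ^ 2 - a * r.num ^ 2))
    (by push_cast; rw [e1]; linear_combination (e * r.den ^ 2 : ℚ) * h1 - (s * r.den) ^ 2 * e2)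
  obtain ⟨w, hw⟩ := int_of_sq (r := t * r.den) (n := e * (d * r.den ^ 2 - c * r.num ^ 2))
    (by push_cast; rw [e1]; linear_combination (e * r.den ^ 2 : ℚ) * h2 - (t * r.den) ^ 2 * e2)
  refine ⟨r.num, v, w, r.den, Int.isCoprime_iff_gcd_eq_one.2 (by simpa [Int.gcd] using r.reduced),
    ?_, ?_⟩
  · rw [hv]; linear_combination (b * r.den ^ 2 - a * r.num ^ 2) * e3
  · rw [hw]; linear_combination (d * r.den ^ 2 - c * r.num ^ 2) * e3

/-- `x` is the abscissa of a rational point not of order dividing `2`. -/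
def InS (p x : ℚ) : Prop := ∃ y : ℚ, y ≠ 0 ∧ y ^ 2 = x * (x - 2) * (x - p)

/-- `x`, `x - 2`, `x - p` are non-zero squares. -/
def InT (p x : ℚ) : Prop :=
  ∃ r s t : ℚ, r ≠ 0 ∧ s ≠ 0 ∧ t ≠ 0 ∧ x = r ^ 2 ∧ x - 2 = s ^ 2 ∧ x - p = t ^ 2

theorem InS.ne {p x : ℚ} (h : InS p x) : x ≠ 0 ∧ x - 2 ≠ 0 ∧ x - p ≠ 0 := by
  obtain ⟨y, hy, e⟩ := h
  have := e ▸ pow_ne_zero 2 hy
  simp only [ne_eq, mul_eq_zero, not_or] at this
  exact ⟨this.1.1, this.1.2, this.2⟩

theorem InS.pos {p x : ℚ} (hp : 0 < p) (h : InS p x) : 0 < x := by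
  obtain ⟨y, hy, e⟩ := h
  by_contra hx
  have h1 : 0 < y ^ 2 := by positivity
  have h2 : 0 < (x - 2) * (x - p) := mul_pos_of_neg_of_neg (by linarith) (by linarith)
  nlinarith

theorem InS.tau1 {p x : ℚ} (hp : p ≠ 0) (h : InS p x) : InS p (2 * p / x) := by
  obtain ⟨h1, h2, h3⟩ := h.ne
  obtain ⟨y, hy, e⟩ := h
  refine ⟨2 * p * y / x ^ 2, by positivity, ?_⟩
  field_simp
  linear_combination e

theorem InS.tau2 {p x : ℚ} (hp : p - 2 ≠ 0) (h : InS p x) : InS p (2 * (x - p) / (x - 2)) := by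
  obtain ⟨h1, h2, h3⟩ := h.ne
  obtain ⟨y, hy, e⟩ := h
  refine ⟨2 * (p - 2) * y / (x - 2) ^ 2, by positivity, ?_⟩
  field_simp
  linear_combination ((p - 2) ^ 2) * e

/-- The duplication map on abscissae. -/
def dup (p x : ℚ) : ℚ := (x ^ 2 - 2 * p) ^ 2 / (4 * (x * (x - 2) * (x - p)))

theorem dup_tau1 {p x : ℚ} (hp : p ≠ 0) (h : InS p x) : dup p (2 * p / x) = dup p x := by
  obtain ⟨h1, h2, h3⟩ := h.ne
  obtain ⟨h4, h5, h6⟩ := (h.tau1 hp).ne
  unfold dup
  rw [div_eq_div_iff (by positivity) (by positivity)]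
  field_simp
  ring

theorem dup_tau2 {p x : ℚ} (hp : p - 2 ≠ 0) (h : InS p x) :
    dup p (2 * (x - p) / (x - 2)) = dup p x := by
  obtain ⟨h1, h2, h3⟩ := h.ne
  obtain ⟨h4, h5, h6⟩ := (h.tau2 hp).ne
  unfold dup
  rw [div_eq_div_iff (by positivity) (by positivity)]
  field_simp
  ring

theorem half {p x : ℚ} (hp : p ≠ 0) (hq : p - 2 ≠ 0) (h : InT p x) :
    ∃ x₀, InS p x₀ ∧ dup p x₀ = x := by
  obtain ⟨r, s, t, -, -, -, e1, e2, e3⟩ := h
  have n1 : r + s ≠ 0 := fun h => by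
    have : s = -r := by linarith
    rw [this] at e2
    linarith
  have n2 : r + t ≠ 0 := fun h => hp (by
    have : t = -r := by linarith
    rw [this] at e3
    linarith)
  have n3 : s + t ≠ 0 := fun h => hq (by
    have : t = -s := by linarith
    rw [this] at e3
    linarith)
  have a1 : x + r * s + r * t + s * t = (r + s) * (r + t) := by linear_combination e1
  have a2 : x + r * s + r * t + s * t - 2 = (r + s) * (s + t) := by linear_combination e2
  have a3 : x + r * s + r * t + s * t - p = (r + t) * (s + t) := by linear_combination e3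
  refine ⟨x + r * s + r * t + s * t, ⟨(r + s) * (r + t) * (s + t), by positivity, ?_⟩, ?_⟩
  · rw [a2, a3, a1]; ring
  · unfold dup
    have b1 : (2 : ℚ) = (r + s) * (r - s) := by linear_combination e1 - e2
    have b2 : p = (r + t) * (r - t) := by linear_combination e1 - e3
    have b3 : 2 * p = (r + s) * (r - s) * ((r + t) * (r - t)) := by rw [← b1, ← b2]
    rw [a2, a3, a1, b3, e1]
    field_simp
    ring

section
variable {p q : ℕ} (hp : p.Prime) (hq : q.Prime) (hpq : q + 2 = p) (hp8 : p % 8 = 1)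
include hp hq hpq hp8

omit hp8 in
theorem val_facts {x : ℚ} (h : InS p x) {l : ℕ} (hl : l.Prime) :
    Even (padicValRat l x + padicValRat l (x - 2) + padicValRat l (x - p)) ∧
    (l ≠ 2 → l ≠ p → Even (padicValRat l x)) ∧ (l ≠ 2 → l ≠ q → Even (padicValRat l (x - 2))) ∧
    (l ≠ p → l ≠ q → Even (padicValRat l (x - p))) := by
  have : Fact l.Prime := ⟨hl⟩
  obtain ⟨h1, h2, h3⟩ := h.ne
  obtain ⟨y, hy, e⟩ := h
  have hs : Even (padicValRat l x + padicValRat l (x - 2) + padicValRat l (x - p)) := by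
    rw [← padicValRat.mul h1 h2, ← padicValRat.mul (mul_ne_zero h1 h2) h3, ← e, padicValRat.pow]
    simp
  have v : ∀ m : ℕ, m.Prime → l ≠ m → padicValRat l m = 0 := fun m hm hne => by
    have : Fact m.Prime := ⟨hm⟩
    rw [padicValRat.of_nat, padicValNat_primes hne]
    simp
  have v2 : l ≠ 2 → padicValRat l 2 = 0 := fun h => by simpa using v 2 Nat.prime_two h
  have p0 : (p : ℚ) ≠ 0 := by exact_mod_cast hp.ne_zero
  have q0 : (q : ℚ) ≠ 0 := by exact_mod_cast hq.ne_zero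
  have e1 : (q : ℚ) + 2 = p := by exact_mod_cast hpq
  refine ⟨hs, fun n1 n2 => ?_, fun n1 n2 => ?_, fun n1 n2 => ?_⟩
  · exact val_even (s := -2) (t := -p) h1 h2 h3 (by norm_num) (neg_ne_zero.2 p0) (by ring)
      (by ring) (by rw [padicValRat.neg, v2 n1]) (by rw [padicValRat.neg, v p hp n2]) hs
  · exact val_even (s := 2) (t := -q) h2 h1 h3 (by norm_num) (neg_ne_zero.2 q0) (by ring)
      (by linarith) (v2 n1) (by rw [padicValRat.neg, v q hq n2]) (by rwa [add_comm _ (padicValRat l x)])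
  · exact val_even (s := p) (t := q) h3 h1 h2 p0 q0 (by ring)
      (by linarith) (v p hp n1) (v q hq n2) (by rw [add_assoc, add_comm]; exact hs)

theorem inT_of (h4 : ¬∃ t : ZMod p, t ^ 8 = -4) {x : ℚ} (h : InS p x)
    (e1 : Even (padicValRat p x)) (e2 : Even (padicValRat q (x - 2))) : InT p x := by
  have : Fact p.Prime := ⟨hp⟩
  obtain ⟨h1, h2, h3⟩ := h.ne
  have hx := h.pos (by exact_mod_cast hp.pos)
  have p2 : p ≠ 2 := by omega
  have q2 : q ≠ 2 := by omega
  have hqp : q ≠ p := by omega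
  obtain ⟨t, ht⟩ := sq_of_val h3 fun l hl => by
    obtain ⟨a, b, c, d⟩ := val_facts hp hq hpq h hl
    by_cases n1 : l = p
    · subst n1
      have := c p2 hqp.symm
      rw [Int.even_iff] at *
      omega
    by_cases n2 : l = q
    · subst n2
      have := b q2 hqp
      rw [Int.even_iff] at *
      omega
    exact d n1 n2
  have hr : ∃ r : ℚ, x = r ^ 2 ∨ x = 2 * r ^ 2 := by
    by_cases n : Even (padicValRat 2 x)
    · obtain ⟨r, hr | hr⟩ := sq_of_val h1 fun l hl => by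
        by_cases n1 : l = 2
        · exact n1 ▸ n
        by_cases n2 : l = p
        · exact n2 ▸ e1
        exact (val_facts hp hq hpq h hl).2.1 n1 n2
      · exact ⟨r, .inl hr⟩
      · nlinarith [sq_nonneg r]
    · obtain ⟨r, hr | hr⟩ := sq_of_val (r := x / 2) (by positivity) fun l hl => by
        have : Fact l.Prime := ⟨hl⟩
        rw [padicValRat.div h1 two_ne_zero]
        by_cases n1 : l = 2
        · subst n1
          have : padicValRat 2 2 = 1 := by simpa using padicValRat.self (p := 2) one_lt_two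
          rw [this, Int.even_iff] at *
          omega
        have : padicValRat l 2 = 0 := by
          have := padicValRat.of_nat (p := l) (n := 2)
          rw [padicValNat_primes n1] at this
          simpa using this
        rw [this, sub_zero]
        by_cases n2 : l = p
        · exact n2 ▸ e1
        exact (val_facts hp hq hpq h hl).2.1 n1 n2
      · exact ⟨r, .inr (by linarith)⟩
      · nlinarith [sq_nonneg r]
  obtain ⟨r, hr⟩ := hr
  obtain ⟨y, hy, e⟩ := h
  have r0 : r ≠ 0 := by rintro rfl; rcases hr with hr | hr <;> exact h1 (by rw [hr]; ring)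
  have t0 : t ≠ 0 := by rintro rfl; rcases ht with ht | ht <;> exact h3 (by rw [ht]; ring)
  have hq' : Prime (q : ℤ) := Nat.prime_iff_prime_int.1 hq
  have hpq' : (q : ℤ) + 2 = p := by exact_mod_cast hpq
  rcases hr with hr | hr <;> rcases ht with ht | ht <;> rw [ht] at e
  · refine ⟨r, y / (r * t), t, r0, by positivity, t0, hr, ?_, ht⟩
    field_simp
    linear_combination -e - (x - 2) * t ^ 2 * hr
  · obtain ⟨u, v, w, z, a, b, c⟩ := clear (a := 1) (b := 2) (c := 1) (d := p) (e := 1) (r := r)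
      (s := y / (r * t)) (t := t) (.inl rfl)
      (by push_cast; field_simp; linear_combination e - (x - 2 + r ^ 2) * t ^ 2 * hr)
      (by push_cast; linear_combination ht - hr)
    exact (h4 (classD hp8 hq' hpq' a (v := v) (w := w) (by linarith) (by linarith))).elim
  · obtain ⟨u, v, w, z, a, b, c⟩ := clear (a := 1) (b := 1) (c := 2) (d := p) (e := -1) (r := r)
      (s := y / (2 * r * t)) (t := t) (.inr rfl)
      (by push_cast; field_simp; linear_combination -e - (x - 2 + 2 * r ^ 2) * t ^ 2 * hr)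
      (by push_cast; linear_combination ht - hr)
    exact (h4 (classA hp8 a (v := v) (w := w) (by linarith) (by linarith))).elim
  · obtain ⟨u, v, w, z, a, b, c⟩ := clear (a := 1) (b := 1) (c := 2) (d := p) (e := 1) (r := r)
      (s := y / (2 * r * t)) (t := t) (.inl rfl)
      (by push_cast; field_simp; linear_combination e - (x - 2 + 2 * r ^ 2) * t ^ 2 * hr)
      (by push_cast; linear_combination ht - hr)
    exact (h4 (classAD hp8 hpq' a (v := v) (w := w) (by linarith) (by linarith))).elim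

theorem normalise (h4 : ¬∃ t : ZMod p, t ^ 8 = -4) {x : ℚ} (h : InS p x) :
    InT p x ∨ InT p (2 * p / x) ∨ InT p (2 * (x - p) / (x - 2)) ∨
      InT p (2 * p / (2 * (x - p) / (x - 2))) := by
  have : Fact p.Prime := ⟨hp⟩
  have : Fact q.Prime := ⟨hq⟩
  have p0 : (p : ℚ) ≠ 0 := by exact_mod_cast hp.ne_zero
  have q0 : (q : ℚ) ≠ 0 := by exact_mod_cast hq.ne_zero
  have epq : (q : ℚ) + 2 = p := by exact_mod_cast hpq
  have q0' : (p : ℚ) - 2 ≠ 0 := by rw [← epq]; simpa using q0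
  have p2 : p ≠ 2 := by omega
  have q2 : q ≠ 2 := by omega
  have hqp : q ≠ p := by omega
  have v : ∀ l m : ℕ, l.Prime → m.Prime → l ≠ m → padicValRat l m = 0 := fun l m hl hm hne => by
    have : Fact m.Prime := ⟨hm⟩
    have : Fact l.Prime := ⟨hl⟩
    rw [padicValRat.of_nat, padicValNat_primes hne]
    simp
  have vp2 : padicValRat p 2 = 0 := by simpa using v p 2 hp Nat.prime_two p2
  have vq2 : padicValRat q 2 = 0 := by simpa using v q 2 hq Nat.prime_two q2
  have step : ∀ x : ℚ, InS p x → Even (padicValRat q (x - 2)) → InT p x ∨ InT p (2 * p / x) := by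
    intro x h e2
    by_cases e1 : Even (padicValRat p x)
    · exact .inl (inT_of hp hq hpq hp8 h4 h e1 e2)
    obtain ⟨h1, h2, h3⟩ := h.ne
    refine .inr (inT_of hp hq hpq hp8 h4 (h.tau1 p0) ?_ ?_)
    · rw [padicValRat.div (by positivity) h1, padicValRat.mul two_ne_zero p0, vp2,
        padicValRat.self hp.one_lt]
      rw [Int.even_iff] at *
      omega
    · obtain ⟨a, b, -, -⟩ := val_facts hp hq hpq h hq
      have := b q2 hqp
      rw [show 2 * (p : ℚ) / x - 2 = -(2 * (x - p) / x) by field_simp; ring, padicValRat.neg,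
        padicValRat.div (by positivity) h1, padicValRat.mul two_ne_zero h3, vq2]
      rw [Int.even_iff] at *
      omega
  by_cases e2 : Even (padicValRat q (x - 2))
  · rcases step x h e2 with h | h
    · exact .inl h
    · exact .inr (.inl h)
  · refine .inr (.inr (step _ (h.tau2 q0') ?_))
    obtain ⟨h1, h2, h3⟩ := h.ne
    rw [show 2 * (x - (p : ℚ)) / (x - 2) - 2 = -(2 * q / (x - 2)) by
        rw [← epq]; field_simp; ring, padicValRat.neg,
      padicValRat.div (by positivity) h2, padicValRat.mul two_ne_zero q0, vq2,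
      padicValRat.self hq.one_lt]
    rw [Int.even_iff] at *
    omega

theorem finite_inS (h4 : ¬∃ t : ZMod p, t ^ 8 = -4) : {x : ℚ | InS p x}.Finite := by
  have p0 : (p : ℚ) ≠ 0 := by exact_mod_cast hp.ne_zero
  have q0 : (q : ℚ) ≠ 0 := by exact_mod_cast hq.ne_zero
  have epq : (q : ℚ) + 2 = p := by exact_mod_cast hpq
  have q0' : (p : ℚ) - 2 ≠ 0 := by rw [← epq]; simpa using q0
  let W : WeierstrassCurve ℚ := ⟨0, -(p + 2), 0, 2 * p, 0⟩
  have : W.IsElliptic := ⟨by
    have : W.Δ = 64 * p ^ 2 * (p - 2) ^ 2 := by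
      simp only [W, WeierstrassCurve.Δ, WeierstrassCurve.b₂, WeierstrassCurve.b₄,
        WeierstrassCurve.b₆, WeierstrassCurve.b₈]
      ring
    rw [this]
    exact Ne.isUnit (by positivity)⟩
  obtain ⟨c, hc⟩ := height_dup W
  have hc' : ∀ x : ℚ, 4 * logHeight₁ x - c ≤ logHeight₁ (dup p x) := fun x => by
    convert hc x using 2
    simp only [W, dup, WeierstrassCurve.b₂, WeierstrassCurve.b₄,
        WeierstrassCurve.b₆, WeierstrassCurve.b₈]
    congr 1 <;> ring
  have hT : {x : ℚ | InT p x}.Finite := by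
    refine finite_of_descent _ logHeight₁ (dup p) c
      (NumberField.finite_setOfPred_logHeight₁_le ℚ) fun s hs => ?_
    suffices ∃ t, InT p t ∧ dup p t = s by
      obtain ⟨t, h1, h2⟩ := this
      exact ⟨t, h1, h2, h2 ▸ hc' t⟩
    obtain ⟨x, hx, e⟩ := half p0 q0' hs
    rcases normalise hp hq hpq hp8 h4 hx with h | h | h | h
    · exact ⟨_, h, e⟩
    · exact ⟨_, h, by rw [dup_tau1 p0 hx, e]⟩
    · exact ⟨_, h, by rw [dup_tau2 q0' hx, e]⟩
    · exact ⟨_, h, by rw [dup_tau1 p0 (hx.tau2 q0'), dup_tau2 q0' hx, e]⟩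
  have i1 : ∀ x : ℚ, InS p x → 2 * p / (2 * p / x) = x := fun x hx => by
    have := hx.ne.1
    field_simp
  have i2 : ∀ x : ℚ, InS p x →
      2 * (2 * (x - p) / (x - 2) - p) / (2 * (x - p) / (x - 2) - 2) = x := fun x hx => by
    have := hx.ne.2.1
    rw [div_eq_iff (hx.tau2 q0').ne.2.1]
    field_simp
    ring
  refine (((hT.union (hT.image fun x : ℚ => 2 * (p : ℚ) / x)).union
    (hT.image fun x : ℚ => 2 * (x - p) / (x - 2))).union
    (hT.image fun x : ℚ => 2 * (2 * (p : ℚ) / x - p) / (2 * (p : ℚ) / x - 2))).subset fun x hx => ?_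
  rcases normalise hp hq hpq hp8 h4 hx with h | h | h | h
  · exact .inl (.inl (.inl h))
  · exact .inl (.inl (.inr ⟨_, h, i1 x hx⟩))
  · exact .inl (.inr ⟨_, h, i2 x hx⟩)
  · exact .inr ⟨_, h, by simp only [i1 _ (InS.tau2 q0' hx), i2 x hx]⟩

end

end Pool.Agent.P.MP_5d883e_nt
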