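import Pool.Agent.P.MP_5d883e_nt.Torsors

/-! Descent on the curve `y^2 = x (x - 2) (x - p)`. -/

namespace Pool.Agent.P.MP_5d883e_nt

lemma nsq {l m : ℕ} (hl : l.Prime) (hm : ¬ l ∣ m) : ¬ IsSquare (l * m) := by
  rintro ⟨r, hr⟩
  have h1 : l ∣ r := by
    have : l ∣ r * r := ⟨m, hr.symm⟩
    rcases (Nat.Prime.dvd_mul hl).1 this with h | h <;> exact h
  obtain ⟨k, rfl⟩ := h1
  apply hm
  refine ⟨k * k, ?_⟩
  have : l * m = l * (l * (k * k)) := by rw [hr]; ring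
  exact Nat.eq_of_mul_eq_mul_left hl.pos this

lemma eq_of_sq {l d d' m : ℕ} (hl : l.Prime) (hd : d ∣ l) (hd' : d' ∣ l) (hm : ¬ l ∣ m)
    (h : IsSquare (d * d' * m)) : d = d' := by
  rcases (Nat.dvd_prime hl).1 hd with rfl | rfl <;> rcases (Nat.dvd_prime hl).1 hd' with h2 | h2
  · exact h2.symm
  · subst h2
    exact absurd (by simpa using h) (nsq hl hm)
  · subst h2
    exact absurd (by simpa using h) (nsq hl hm)
  · exact h2.symm

lemma not_dvd_of_dvd_prime {l r d : ℕ} (hl : l.Prime) (hr : r.Prime) (hne : l ≠ r) (hd : d ∣ r) :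
    ¬ l ∣ d := fun h => hne ((Nat.prime_dvd_prime_iff_eq hl hr).1 (h.trans hd))

lemma not_dvd_mul4 {l a b c d : ℕ} (hl : l.Prime) (ha : ¬ l ∣ a) (hb : ¬ l ∣ b) (hc : ¬ l ∣ c)
    (hd : ¬ l ∣ d) : ¬ l ∣ a * b * c * d := by
  simp only [Nat.Prime.dvd_mul hl]
  tauto

/-- A natural number dividing `u + k t^2` and `m t^4`, with `u` coprime to `t`, divides `m`. -/
lemma dvd_of_cop {s : ℕ} {u t k m : ℤ} (hc : IsCoprime u t) (h1 : (s : ℤ) ∣ u + k * t ^ 2)
    (h2 : (s : ℤ) ∣ m * t ^ 4) : (s : ℤ) ∣ m := by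
  have h3 : IsCoprime (u + k * t ^ 2) t := by
    have : u + k * t ^ 2 = u + t * (k * t) := by ring
    rw [this]; exact hc.add_mul_left_left _
  have h4 : IsCoprime (s : ℤ) (t ^ 4) := (h3.of_isCoprime_of_dvd_left h1).pow_right
  exact h4.dvd_of_dvd_mul_right h2

/-- Integer form of the descent. -/
lemma int_descent {p : ℕ} [hp : Fact p.Prime] (h8 : p % 8 = 1) (hq : (p - 2).Prime)
    (hf : ¬ ∃ x y : ℤ, (p : ℤ) = x ^ 2 + 32 * y ^ 2) {u t W : ℤ} (hc : IsCoprime u t)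
    (hpos : p * t ^ 2 < u) (ht : t ≠ 0) (h : u * (u - 2 * t ^ 2) * (u - p * t ^ 2) = W ^ 2) :
    (∃ a b c : ℤ, u = a ^ 2 ∧ u - 2 * t ^ 2 = b ^ 2 ∧ u - p * t ^ 2 = c ^ 2) ∨
      ∃ (e : ℕ) (c : ℤ), e ∣ p ∧ u - p * t ^ 2 = e * (p - 2) * c ^ 2 := by
  have hp2 := hp.out.two_le
  have hp9 : 9 ≤ p := by omega
  have hqp : ((p - 2 : ℕ) : ℤ) = p - 2 := by omega
  have ht2 : 0 < t ^ 2 := by positivity
  have hp9' : (9 : ℤ) ≤ p := by exact_mod_cast hp9
  have hX3 : 0 < u - p * t ^ 2 := by linarith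
  have hX2 : 0 < u - 2 * t ^ 2 := by nlinarith
  have hX1 : 0 < u := by nlinarith
  obtain ⟨s1, a, -, ha, hs1⟩ := sqfree_part_int (Y := (u - 2 * t ^ 2) * (u - p * t ^ 2)) hX1
    (by rw [← h]; ring)
  obtain ⟨s2, b, -, hb, hs2⟩ := sqfree_part_int (Y := u * (u - p * t ^ 2)) hX2
    (by rw [← h]; ring)
  obtain ⟨s3, c, -, hc3, hs3⟩ := sqfree_part_int (Y := u * (u - 2 * t ^ 2)) hX3
    (by rw [← h]; ring)
  have d1 : (s1 : ℤ) ∣ u := ⟨a ^ 2, ha⟩
  have d2 : (s2 : ℤ) ∣ u - 2 * t ^ 2 := ⟨b ^ 2, hb⟩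
  have d3 : (s3 : ℤ) ∣ u - p * t ^ 2 := ⟨c ^ 2, hc3⟩
  have e1 : s1 ∣ 2 * p := by
    have : (s1 : ℤ) ∣ 2 * p := by
      refine dvd_of_cop (k := 0) hc (by simpa using d1) ?_
      have : (2 * p : ℤ) * t ^ 4 = (u - 2 * t ^ 2) * (u - p * t ^ 2) - u * (u - (p + 2) * t ^ 2) := by
        ring
      rw [this]; exact dvd_sub hs1 (d1.mul_right _)
    exact_mod_cast this
  have e2 : s2 ∣ 2 * (p - 2) := by
    have : (s2 : ℤ) ∣ 2 * (p - 2) := by
      refine dvd_of_cop (k := -2) hc (by simpa [sub_eq_add_neg] using d2) ?_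
      have : (2 * (p - 2) : ℤ) * t ^ 4 =
          (u - 2 * t ^ 2) * (u - (p - 2) * t ^ 2) - u * (u - p * t ^ 2) := by ring
      rw [this]; exact dvd_sub (d2.mul_right _) hs2
    rw [← hqp] at this
    exact_mod_cast this
  have e3 : s3 ∣ p * (p - 2) := by
    have : (s3 : ℤ) ∣ p * (p - 2) := by
      refine dvd_of_cop (k := -p) hc (by simpa [sub_eq_add_neg] using d3) ?_
      have : (p * (p - 2) : ℤ) * t ^ 4 =
          u * (u - 2 * t ^ 2) - (u - p * t ^ 2) * (u + (p - 2) * t ^ 2) := by ring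
      rw [this]; exact dvd_sub hs3 (d3.mul_right _)
    rw [← hqp] at this
    exact_mod_cast this
  have ha0 : a ≠ 0 := by rintro rfl; simp at ha; omega
  have hb0 : b ≠ 0 := by rintro rfl; simp at hb; omega
  have hc0 : c ≠ 0 := by rintro rfl; simp at hc3; omega
  have hsq : IsSquare (s1 * s2 * s3) := by
    have h1 : ((s1 * s2 * s3 : ℕ) : ℤ) * (a * b * c) ^ 2 = W ^ 2 := by
      rw [← h, hc3, hb, ha]; push_cast; ring
    have h2 : (a * b * c) ^ 2 ∣ W ^ 2 := Dvd.intro_left _ h1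
    obtain ⟨k, rfl⟩ := (Int.pow_dvd_pow_iff (by norm_num)).1 h2
    have h3 : ((s1 * s2 * s3 : ℕ) : ℤ) = k * k := by
      have h4 : (a * b * c) ^ 2 ≠ 0 := by positivity
      apply mul_right_cancel₀ h4
      rw [h1]; ring
    exact Int.isSquare_natCast_iff.1 ⟨k, h3⟩
  obtain ⟨f1, f2, g1, g2, rfl⟩ := (Nat.dvd_mul).1 e1
  obtain ⟨f3, f4, g3, g4, rfl⟩ := (Nat.dvd_mul).1 e2
  obtain ⟨f5, f6, g5, g6, rfl⟩ := (Nat.dvd_mul).1 e3
  have n1 : (2 : ℕ) ≠ p := by omega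
  have n2 : (2 : ℕ) ≠ p - 2 := by omega
  have n3 : p ≠ p - 2 := by omega
  have k1 : f1 = f3 := eq_of_sq (m := f2 * f4 * f5 * f6) Nat.prime_two g1 g3
    (not_dvd_mul4 Nat.prime_two (not_dvd_of_dvd_prime Nat.prime_two hp.out n1 g2)
      (not_dvd_of_dvd_prime Nat.prime_two hq n2 g4)
      (not_dvd_of_dvd_prime Nat.prime_two hp.out n1 g5)
      (not_dvd_of_dvd_prime Nat.prime_two hq n2 g6)) (by convert hsq using 1; ring)
  have k2 : f2 = f5 := eq_of_sq (m := f1 * f3 * f4 * f6) hp.out g2 g5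
    (not_dvd_mul4 hp.out (not_dvd_of_dvd_prime hp.out Nat.prime_two n1.symm g1)
      (not_dvd_of_dvd_prime hp.out Nat.prime_two n1.symm g3)
      (not_dvd_of_dvd_prime hp.out hq n3 g4)
      (not_dvd_of_dvd_prime hp.out hq n3 g6)) (by convert hsq using 1; ring)
  have k3 : f4 = f6 := eq_of_sq (m := f1 * f3 * f2 * f5) hq g4 g6
    (not_dvd_mul4 hq (not_dvd_of_dvd_prime hq Nat.prime_two n2.symm g1)
      (not_dvd_of_dvd_prime hq Nat.prime_two n2.symm g3)
      (not_dvd_of_dvd_prime hq hp.out n3.symm g2)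
      (not_dvd_of_dvd_prime hq hp.out n3.symm g5)) (by convert hsq using 1; ring)
  subst k1 k2 k3
  rcases (Nat.dvd_prime hq).1 g4 with rfl | h4
  swap
  · right
    refine ⟨f2, c, g2, ?_⟩
    rw [hc3, h4]; push_cast [hqp]; ring
  have hca : IsCoprime |a| t := by
    have h1 : a ∣ u := ⟨(f1 * f2 : ℕ) * a, by rw [ha]; ring⟩
    have h2 : IsCoprime a t := hc.of_isCoprime_of_dvd_left h1
    exact h2.of_isCoprime_of_dvd_left ((abs_dvd _ _).2 dvd_rfl)
  have hap : 0 < |a| := abs_pos.2 ha0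
  have haa : |a| ^ 2 = a ^ 2 := sq_abs a
  have hp0 : (p : ℤ) ≠ 0 := by omega
  rcases (Nat.dvd_prime Nat.prime_two).1 g1 with rfl | rfl <;>
    rcases (Nat.dvd_prime hp.out).1 g2 with h2 | h2 <;> subst h2
  · left
    exact ⟨a, b, c, by simpa using ha, by simpa using hb, by simpa using hc3⟩
  · exfalso
    push_cast at ha hb hc3
    refine hf (torsorC (b := b) (c := c) h8 hap ?_ ?_ hca)
    · apply mul_left_cancel₀ hp0
      rw [haa]; linarith
    · rw [haa]; linarith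
  · exfalso
    push_cast at ha hb hc3
    refine hf (torsorD (b := b) (c := c) h8 hap ?_ ?_ hca ?_)
    · rw [haa]; linarith
    · rw [haa]; linarith
    · by_contra hcon
      exact cop_prime hc Nat.prime_two ⟨a ^ 2, by rw [ha]; push_cast; ring⟩
        ⟨t / 2, by push_cast; omega⟩
  · exfalso
    push_cast at ha hb hc3
    refine hf (torsorB (b := b) (c := c) h8 hq ?_ ?_ hca)
    · rw [haa]; linarith
    · apply mul_left_cancel₀ hp0
      rw [haa]; linarith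

/-- Rational form of the descent for points with `x > p`. -/
lemma rat_descent {p : ℕ} [hp : Fact p.Prime] (h8 : p % 8 = 1) (hq : (p - 2).Prime)
    (hf : ¬ ∃ x y : ℤ, (p : ℤ) = x ^ 2 + 32 * y ^ 2) {x y : ℚ} (hx : (p : ℚ) < x)
    (h : y ^ 2 = x * (x - 2) * (x - p)) :
    (∃ a b c : ℚ, x = a ^ 2 ∧ x - 2 = b ^ 2 ∧ x - p = c ^ 2) ∨
      ∃ (e : ℕ) (c : ℚ), e ∣ p ∧ x - p = e * (p - 2) * c ^ 2 := by
  set u := x.num with hu
  set T : ℤ := (x.den : ℤ) with hT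
  have hT0 : 0 < T := by rw [hT]; exact_mod_cast x.den_pos
  have hTq : (T : ℚ) ≠ 0 := by exact_mod_cast hT0.ne'
  have hxu : x = u / T := by rw [hu, hT]; push_cast; exact (Rat.num_div_den x).symm
  have hcop : IsCoprime u T := by
    rw [Int.isCoprime_iff_gcd_eq_one]
    exact x.reduced
  have hsq : IsSquare (T * (u * (u - 2 * T) * (u - p * T))) := by
    rw [← Rat.isSquare_intCast_iff]
    refine ⟨y * T ^ 2, ?_⟩
    have : y * T ^ 2 * (y * T ^ 2) = y ^ 2 * T ^ 4 := by ring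
    rw [this, h, hxu]; push_cast; field_simp
  obtain ⟨Z, hZ⟩ := hsq
  obtain ⟨s, t, -, hst, hs⟩ := sqfree_part_int (Z := Z) hT0 (by rw [hZ]; ring)
  have hsT : (s : ℤ) ∣ T := ⟨t ^ 2, hst⟩
  have hs1 : (s : ℤ) = 1 := by
    have h1 : (s : ℤ) ∣ u ^ 3 := by
      have : u ^ 3 = u * (u - 2 * T) * (u - p * T) + T * ((p + 2) * u ^ 2 - 2 * p * u * T) := by
        ring
      rw [this]; exact dvd_add hs (hsT.mul_right _)
    have h2 := (hcop.pow_left (m := 3)).isUnit_of_dvd' h1 hsT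
    rcases Int.isUnit_iff.1 h2 with h3 | h3
    · exact h3
    · omega
  rw [hs1, one_mul] at hst
  have ht0 : t ≠ 0 := by rintro rfl; simp at hst; omega
  have htq : (t : ℚ) ≠ 0 := by exact_mod_cast ht0
  rw [hst] at hZ hcop hxu
  have h1 : t ^ 2 ∣ Z ^ 2 := ⟨_, by rw [sq Z, ← hZ]⟩
  obtain ⟨W, rfl⟩ := (Int.pow_dvd_pow_iff (by norm_num)).1 h1
  have h2 : u * (u - 2 * t ^ 2) * (u - p * t ^ 2) = W ^ 2 := by
    have h4 : t ^ 2 ≠ 0 := by positivity
    apply mul_left_cancel₀ h4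
    rw [hZ]; ring
  have hc : IsCoprime u t := hcop.of_isCoprime_of_dvd_right (Dvd.intro t (by ring))
  have hpos : p * t ^ 2 < u := by
    have h3 : (0 : ℚ) < (t : ℚ) ^ 2 := by positivity
    rw [hxu] at hx
    push_cast at hx
    rw [lt_div_iff₀ h3] at hx
    exact_mod_cast hx
  push_cast at hxu
  rcases int_descent h8 hq hf hc hpos ht0 h2 with ⟨a, b, c, ha, hb, hc⟩ | ⟨e, c, he, hc⟩
  · left
    have ha' : (u : ℚ) = a ^ 2 := by exact_mod_cast ha
    have hb' : (u : ℚ) - 2 * t ^ 2 = b ^ 2 := by exact_mod_cast hb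
    have hc' : (u : ℚ) - p * t ^ 2 = c ^ 2 := by exact_mod_cast hc
    refine ⟨a / t, b / t, c / t, ?_, ?_, ?_⟩
    · rw [hxu, ha']; ring
    · rw [hxu, div_pow, ← hb']; field_simp
    · rw [hxu, div_pow, ← hc']; field_simp
  · right
    have hc' : (u : ℚ) - p * t ^ 2 = e * (p - 2) * c ^ 2 := by exact_mod_cast hc
    refine ⟨e, c / t, he, ?_⟩
    rw [hxu, div_pow, ← mul_div_assoc, ← hc']; field_simp

/-- The cubic. -/
def cub (p x : ℚ) : ℚ := x * (x - 2) * (x - p)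

/-- The abscissa of the double of a point with abscissa `x`. -/
def dbl (p x : ℚ) : ℚ := (x ^ 2 - 2 * p) ^ 2 / (4 * cub p x)

lemma step_big {p : ℕ} [hp : Fact p.Prime] (h8 : p % 8 = 1) (hq : (p - 2).Prime)
    (hf : ¬ ∃ x y : ℤ, (p : ℤ) = x ^ 2 + 32 * y ^ 2) {x y : ℚ} (hx : (p : ℚ) < x)
    (h : y ^ 2 = cub p x) :
    ∃ x1 a b c : ℚ, x1 = a ^ 2 ∧ x1 - 2 = b ^ 2 ∧ x1 - p = c ^ 2 ∧ (p : ℚ) < x1 ∧
      dbl p x1 = dbl p x := by
  have hp2 := hp.out.two_le
  have hp9 : 9 ≤ p := by omega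
  have hp9' : (9 : ℚ) ≤ p := by exact_mod_cast hp9
  rcases rat_descent h8 hq hf hx h with ⟨a, b, c, ha, hb, hc⟩ | ⟨e, c, he, hc⟩
  · exact ⟨x, a, b, c, ha, hb, hc, hx, rfl⟩
  have hxp : 0 < x - p := by linarith
  have hx0 : x ≠ 0 := by linarith
  have hx2 : x - 2 ≠ 0 := by linarith
  have hp0 : (p : ℚ) ≠ 0 := by linarith
  have hq0 : (p : ℚ) - 2 ≠ 0 := by linarith
  set x1 := p + p * (p - 2) / (x - p) with hx1
  have hx1p : (p : ℚ) < x1 := by
    have : 0 < (p : ℚ) * (p - 2) / (x - p) := by apply div_pos _ hxp; nlinarith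
    linarith
  have hcub : cub p x1 = (p * (p - 2)) ^ 2 / (x - p) ^ 4 * cub p x := by
    rw [hx1]; unfold cub; field_simp; ring
  have hy1 : (p * (p - 2) * y / (x - p) ^ 2) ^ 2 = cub p x1 := by
    rw [hcub, ← h]; field_simp
  have hd : dbl p x1 = dbl p x := by
    unfold dbl
    rw [hcub, hx1]
    unfold cub
    field_simp
    ring
  rcases rat_descent h8 hq hf hx1p hy1 with ⟨a, b, c, ha, hb, hc⟩ | ⟨e', c', he', hc'⟩
  · exact ⟨x1, a, b, c, ha, hb, hc, hx1p, hd⟩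
  exfalso
  have h1 : (x - p) * (x1 - p) = p * (p - 2) := by rw [hx1]; field_simp; ring
  rw [hc, hc'] at h1
  have hqp : ((p - 2 : ℕ) : ℚ) = p - 2 := by push_cast [Nat.cast_sub hp2]; ring
  have n3 : p - 2 ≠ p := by omega
  refine nsq (m := p * e * e' * 1) hq (not_dvd_mul4 hq (not_dvd_of_dvd_prime hq hp.out n3 dvd_rfl)
    (not_dvd_of_dvd_prime hq hp.out n3 he) (not_dvd_of_dvd_prime hq hp.out n3 he')
    (not_dvd_of_dvd_prime hq hp.out n3 (one_dvd _))) ?_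
  rw [← Rat.isSquare_natCast_iff]
  refine ⟨e * e' * (p - 2) * c * c', ?_⟩
  push_cast [hqp]
  linear_combination (-(e : ℚ) * e') * h1

lemma step {p : ℕ} [hp : Fact p.Prime] (h8 : p % 8 = 1) (hq : (p - 2).Prime)
    (hf : ¬ ∃ x y : ℤ, (p : ℤ) = x ^ 2 + 32 * y ^ 2) {x y : ℚ} (hy : y ≠ 0)
    (h : y ^ 2 = cub p x) :
    ∃ x1 x' y' : ℚ, y' ≠ 0 ∧ y' ^ 2 = cub p x' ∧ cub p x1 ≠ 0 ∧ dbl p x' = x1 ∧
      dbl p x1 = dbl p x := by
  have hp2 := hp.out.two_le
  have hp9 : 9 ≤ p := by omega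
  have hp9' : (9 : ℚ) ≤ p := by exact_mod_cast hp9
  have key : ∃ x1 a b c : ℚ, x1 = a ^ 2 ∧ x1 - 2 = b ^ 2 ∧ x1 - p = c ^ 2 ∧ (p : ℚ) < x1 ∧
      dbl p x1 = dbl p x := by
    have hpos : 0 < x * (x - 2) * (x - p) := by
      have : 0 < y ^ 2 := by positivity
      rw [h] at this; exact this
    by_cases hx : (p : ℚ) < x
    · exact step_big h8 hq hf hx h
    have hxp : x - p < 0 := by
      rcases lt_or_eq_of_le (not_lt.1 hx) with h1 | h1
      · linarith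
      · rw [h1] at hpos; simp at hpos
    have h1 : x * (x - 2) < 0 := by
      by_contra hcon
      push Not at hcon
      nlinarith
    have hx0 : 0 < x := by nlinarith
    have hx2 : x < 2 := by nlinarith
    have hp0 : (p : ℚ) ≠ 0 := by linarith
    have hx1 : (p : ℚ) < 2 * p / x := by
      rw [lt_div_iff₀ hx0]; nlinarith
    have hcub : cub p (2 * p / x) = (2 * p) ^ 2 / x ^ 4 * cub p x := by
      unfold cub; field_simp; ring
    have hy1 : (2 * p * y / x ^ 2) ^ 2 = cub p (2 * p / x) := by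
      rw [hcub, ← h]; field_simp
    have hd : dbl p (2 * p / x) = dbl p x := by
      unfold dbl
      rw [hcub]
      have h2 : x - 2 ≠ 0 := by linarith
      have h3 : x - p ≠ 0 := by linarith
      unfold cub
      field_simp
      ring
    obtain ⟨x1, a, b, c, h1, h2, h3, h4, h5⟩ := step_big h8 hq hf hx1 hy1
    exact ⟨x1, a, b, c, h1, h2, h3, h4, h5.trans hd⟩
  obtain ⟨x1, a, b, c, ha, hb, hc, hx1, hd⟩ := key
  have e1 : (a + b) * (a - b) = 2 := by linear_combination hb - ha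
  have e2 : (a + c) * (a - c) = p := by linear_combination hc - ha
  have e3 : (b + c) * (b - c) = p - 2 := by linear_combination hc - hb
  have n1 : a + b ≠ 0 := by intro h0; rw [h0] at e1; norm_num at e1
  have n2 : a + c ≠ 0 := by intro h0; rw [h0] at e2; linarith
  have n3 : b + c ≠ 0 := by intro h0; rw [h0] at e3; linarith
  have hcub : cub p ((a + b) * (a + c)) = ((a + b) * (a + c) * (b + c)) ^ 2 := by
    unfold cub
    rw [← e2]
    nth_rw 1 [← e1]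
    ring
  refine ⟨x1, (a + b) * (a + c), (a + b) * (a + c) * (b + c), by positivity, hcub.symm, ?_, ?_, hd⟩
  · unfold cub
    have : 0 < x1 * (x1 - 2) * (x1 - p) := by
      apply mul_pos (mul_pos _ _) <;> linarith
    exact this.ne'
  · unfold dbl
    rw [hcub, ha]
    have : ((a + b) * (a + c)) ^ 2 - 2 * p = 2 * a * ((a + b) * (a + c) * (b + c)) := by
      have e4 : (2 * p : ℚ) = (a + b) * (a - b) * ((a + c) * (a - c)) := by rw [e1, e2]
      rw [e4]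
      ring
    rw [this]
    field_simp
    ring

section Norm

lemma nsub {a b : ℚ} (h : padicNorm 2 b < padicNorm 2 a) : padicNorm 2 (a - b) = padicNorm 2 a := by
  rw [sub_eq_add_neg, padicNorm.add_eq_max_of_ne (by rw [padicNorm.neg]; exact h.ne'),
    padicNorm.neg, max_eq_left h.le]

lemma nsub' {a b : ℚ} (h : padicNorm 2 a < padicNorm 2 b) :
    padicNorm 2 (a - b) = padicNorm 2 b := by
  rw [← neg_sub, padicNorm.neg, nsub h]

lemma n_two : padicNorm 2 2 = 1 / 2 := by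
  have := padicNorm.padicNorm_p_of_prime (p := 2)
  simpa using this

lemma n_sq (a : ℚ) : padicNorm 2 (a ^ 2) = padicNorm 2 a ^ 2 := by
  rw [sq, sq, padicNorm.mul]

lemma n_dbl (p x : ℚ) : padicNorm 2 (dbl p x) = 4 * padicNorm 2 (x ^ 2 - 2 * p) ^ 2 /
    (padicNorm 2 x * padicNorm 2 (x - 2) * padicNorm 2 (x - p)) := by
  unfold dbl cub
  have h4 : (4 : ℚ) = 2 * 2 := by norm_num
  rw [padicNorm.div, n_sq, padicNorm.mul, padicNorm.mul, padicNorm.mul]
  nth_rw 1 [h4]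
  rw [padicNorm.mul, n_two]
  field_simp
  ring

lemma n_dbl_big {p x : ℚ} (hp : padicNorm 2 p = 1) (hx : 1 < padicNorm 2 x) :
    padicNorm 2 (dbl p x) = 4 * padicNorm 2 x := by
  have h1 : padicNorm 2 (x ^ 2 - 2 * p) = padicNorm 2 x ^ 2 := by
    rw [nsub, n_sq]
    rw [n_sq, padicNorm.mul, n_two, hp]; nlinarith
  have h2 : padicNorm 2 (x - 2) = padicNorm 2 x := nsub (by rw [n_two]; linarith)
  have h3 : padicNorm 2 (x - p) = padicNorm 2 x := nsub (by rw [hp]; linarith)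
  rw [n_dbl, h1, h2, h3]
  field_simp

lemma n_dbl_ge {p x : ℚ} (hp : padicNorm 2 p = 1) (hc : cub p x ≠ 0) :
    4 ≤ padicNorm 2 (dbl p x) := by
  have hx0 : x ≠ 0 := by rintro rfl; simp [cub] at hc
  have hx2 : x - 2 ≠ 0 := by intro h; simp [cub, h] at hc
  have hxp : x - p ≠ 0 := by intro h; simp [cub, h] at hc
  have pos : ∀ z : ℚ, z ≠ 0 → 0 < padicNorm 2 z := fun z hz =>
    lt_of_le_of_ne (padicNorm.nonneg z) (padicNorm.nonzero hz).symm
  have p0 := pos x hx0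
  have p2 := pos _ hx2
  have pp := pos _ hxp
  rcases lt_trichotomy (padicNorm 2 x) 1 with h | h | h
  · have hle : padicNorm 2 x ≤ 1 / 2 := by
      obtain ⟨z, hz⟩ := padicNorm.values_discrete (p := 2) hx0
      rw [hz] at h ⊢
      have h1 : -z < 0 := (zpow_lt_one_iff_right₀ (by norm_num)).1 h
      have h2 : ((2 : ℕ) : ℚ) ^ (-z) ≤ ((2 : ℕ) : ℚ) ^ (-1 : ℤ) :=
        zpow_le_zpow_right₀ (by norm_num) (by omega)
      simpa using h2
    have h1 : padicNorm 2 (x ^ 2 - 2 * p) = 1 / 2 := by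
      rw [nsub']
      · rw [padicNorm.mul, n_two, hp]; norm_num
      · rw [n_sq, padicNorm.mul, n_two, hp]; nlinarith
    have h2 : padicNorm 2 (x - 2) ≤ 1 / 2 :=
      (padicNorm.sub (p := 2)).trans (max_le hle n_two.le)
    have h3 : padicNorm 2 (x - p) = 1 := by rw [nsub' (by rw [hp]; exact h), hp]
    rw [n_dbl, h1, h3, le_div_iff₀ (by positivity)]
    nlinarith
  · have h1 : padicNorm 2 (x ^ 2 - 2 * p) = 1 := by
      rw [nsub]
      · rw [n_sq, h]; norm_num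
      · rw [n_sq, padicNorm.mul, n_two, hp, h]; norm_num
    have h2 : padicNorm 2 (x - 2) = 1 := by rw [nsub (by rw [n_two, h]; norm_num), h]
    have h3 : padicNorm 2 (x - p) ≤ 1 := (padicNorm.sub (p := 2)).trans (max_le h.le hp.le)
    rw [n_dbl, h1, h2, h, le_div_iff₀ (by positivity)]
    nlinarith
  · rw [n_dbl_big hp h]; linarith

end Norm

/-- No rational point with `y ≠ 0`. -/
theorem y_eq_zero {p : ℕ} (hp : p.Prime) (h8 : p % 8 = 1) (hq : (p - 2).Prime)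
    (hf : ¬ ∃ x y : ℤ, (p : ℤ) = x ^ 2 + 32 * y ^ 2) {x y : ℚ}
    (h : y ^ 2 = x * (x - 2) * (x - p)) : y = 0 := by
  have : Fact p.Prime := ⟨hp⟩
  have hn : padicNorm 2 (p : ℚ) = 1 := (padicNorm.nat_eq_one_iff (p := 2) p).2 (by omega)
  have key : ∀ n : ℕ, ∀ x y : ℚ, y ≠ 0 → y ^ 2 = cub p x →
      (n : ℚ) + 4 ≤ padicNorm 2 (dbl p x) := by
    intro n
    induction n with
    | zero =>
      intro x y hy h
      have : cub p x ≠ 0 := by rw [← h]; positivity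
      simpa using n_dbl_ge hn this
    | succ n ih =>
      intro x y hy h
      obtain ⟨x1, x', y', h1, h2, -, h4, h5⟩ := step h8 hq hf hy h
      have h6 := ih x' y' h1 h2
      rw [h4] at h6
      have h7 : (0 : ℚ) ≤ n := by positivity
      rw [← h5, n_dbl_big hn (by linarith)]
      push_cast
      linarith
  by_contra hy
  obtain ⟨n, hn⟩ := exists_nat_gt (padicNorm 2 (dbl p x))
  have := key n x y hy h
  linarith

end Pool.Agent.P.MP_5d883e_nt
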