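import Pool.Agent.P.MP_5d883e_nt.Sq

/-! The condition `p = x² + 32 y²` and the residue symbol of `1 + i`. -/

namespace Pool.Agent.P.MP_5d883e_nt

open scoped NumberTheorySymbols

lemma prime_isSquare_of {p : ℕ} [hp : Fact p.Prime] (h8 : p % 8 = 1) {l : ℕ} (hl : l.Prime)
    (h : IsSquare (p : ZMod l)) : IsSquare (l : ZMod p) := by
  by_cases h2 : l = 2
  · subst h2
    exact_mod_cast (ZMod.exists_sq_eq_two_iff (p := p) (by omega)).2 (Or.inl h8)
  · have := Fact.mk hl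
    exact (ZMod.exists_sq_eq_prime_iff_of_mod_four_eq_one (by omega) h2).2 h

lemma int_isSquare_of {p : ℕ} [hp : Fact p.Prime] (h8 : p % 8 = 1) {n k : ℤ}
    (h : n ∣ (p : ℤ) - k ^ 2) : IsSquare (n : ZMod p) := by
  refine isSquare_of_mul h8 (X := n) (Y := n) (Z := n) (by ring) fun l hl h1 _ => ?_
  refine prime_isSquare_of h8 hl ⟨(k : ZMod l), ?_⟩
  have := (ZMod.intCast_zmod_eq_zero_iff_dvd _ l).2 (h1.trans h)
  push_cast at this
  linear_combination this

lemma not_dvd_of_rep {p : ℕ} [hp : Fact p.Prime] {u v A B : ℤ} (h : (p : ℤ) = A * u ^ 2 + B * v ^ 2)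
    (hu : (p : ℤ) ∣ u) (hv : (p : ℤ) ∣ v) : False := by
  obtain ⟨x, rfl⟩ := hu
  obtain ⟨y, rfl⟩ := hv
  have hp0 : (p : ℤ) ≠ 0 := by exact_mod_cast hp.out.ne_zero
  have h1 : (p : ℤ) * (p * (A * x ^ 2 + B * y ^ 2)) = p * 1 := by linear_combination -h
  have h2 := mul_left_cancel₀ hp0 h1
  have h3 : (p : ℤ) ∣ 1 := ⟨_, h2.symm⟩
  have := Int.le_of_dvd one_pos h3
  have := hp.out.two_le
  omega

/-- Jacobi symbol computation. -/
lemma jac_eval {p : ℕ} (h8 : p % 8 = 1) {a : ℕ} (ha : a % 2 = 1) {e k : ℤ}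
    (h : (a : ℤ) ∣ (p : ℤ) - e * k ^ 2) : J(a | p) = J(e | a) * J(k | a) ^ 2 := by
  rw [jacobiSym.quadratic_reciprocity_one_mod_four' (Nat.odd_iff.2 ha) (by omega),
    ← jacobiSym.pow_left, ← jacobiSym.mul_left]
  apply jacobiSym.mod_left'
  exact (Int.emod_emod_of_dvd _ (dvd_refl _)).symm.trans
    ((Int.emod_emod_of_dvd _ (dvd_refl _)).trans (Int.ModEq.eq (Int.modEq_iff_dvd.2 h).symm))

lemma two_ne_zero_zmod {p : ℕ} [hp : Fact p.Prime] (h8 : p % 8 = 1) : (2 : ZMod p) ≠ 0 := by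
  intro h
  have : ((2 : ℕ) : ZMod p) = 0 := by exact_mod_cast h
  rw [ZMod.natCast_eq_zero_iff] at this
  have := Nat.le_of_dvd (by norm_num) this
  have := hp.out.two_le
  omega

/-- If `1 + i` is a square mod `p`, then `p = x² + 32 y²`. -/
lemma form_of_isSquare {p : ℕ} [hp : Fact p.Prime] (h8 : p % 8 = 1) {i : ZMod p}
    (hi : i ^ 2 = -1) (hsq : IsSquare (1 + i)) : ∃ x y : ℤ, (p : ℤ) = x ^ 2 + 32 * y ^ 2 := by
  obtain ⟨α, d, hrep⟩ := rep_neg_two h8
  by_cases hd : d % 2 = 0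
  · refine ⟨α, d / 2, ?_⟩
    have h3 : d = 2 * (d / 2) := by omega
    rw [hrep]; conv_lhs => rw [h3]
    ring
  exfalso
  have hd1 : d % 2 = 1 := by omega
  have h8' : (p : ℤ) % 8 = 1 := by omega
  have hα : α % 2 = 1 := by
    by_contra hcon
    have := even_sq_mod4 (a := α) (by omega)
    omega
  have h2 := two_ne_zero_zmod h8
  have hz : (α : ZMod p) ^ 2 + 8 * (d : ZMod p) ^ 2 = 0 := by
    have := congrArg (Int.cast : ℤ → ZMod p) hrep
    push_cast at this
    rw [ZMod.natCast_self] at this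
    exact this.symm
  have hd0 : (d : ZMod p) ≠ 0 := by
    intro h0
    have h1 : (α : ZMod p) = 0 := by
      rw [h0] at hz
      simpa using hz
    exact not_dvd_of_rep (A := 1) (B := 8) (by linarith)
      ((ZMod.intCast_zmod_eq_zero_iff_dvd _ p).1 h1) ((ZMod.intCast_zmod_eq_zero_iff_dvd _ p).1 h0)
  have hα0 : (α : ZMod p) ≠ 0 := by
    intro h0
    rw [h0] at hz
    have : (2 : ZMod p) ^ 3 * (d : ZMod p) ^ 2 = 0 := by linear_combination hz
    rcases mul_eq_zero.1 this with h | h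
    · exact h2 (pow_eq_zero_iff (by norm_num) |>.1 h)
    · exact hd0 (pow_eq_zero_iff (by norm_num) |>.1 h)
  have hi1 : 1 + i ≠ 0 := by
    intro h0
    have : i = -1 := by linear_combination h0
    rw [this] at hi
    exact h2 (by linear_combination hi)
  have h2d : IsSquare ((2 * d : ℤ) : ZMod p) := by
    have h3 : IsSquare (2 : ZMod p) := (ZMod.exists_sq_eq_two_iff (p := p) (by omega)).2 (Or.inl h8)
    have h4 : IsSquare (d : ZMod p) := int_isSquare_of h8 (k := α) ⟨8 * d, by linarith⟩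
    push_cast
    exact h3.mul h4
  push_cast at h2d
  set ζ : ZMod p := α / (2 * d * (1 + i)) with hζ
  have hζ0 : ζ ≠ 0 := div_ne_zero hα0 (mul_ne_zero (mul_ne_zero h2 hd0) hi1)
  have hαζ : (α : ZMod p) = ζ * (2 * d * (1 + i)) := by
    rw [hζ]; field_simp
  have hζ2 : ζ ^ 2 = i := by
    have h5 : (ζ ^ 2 - i) * (2 * d * (1 + i)) ^ 2 = 0 := by
      have : ζ ^ 2 * (2 * d * (1 + i)) ^ 2 = (α : ZMod p) ^ 2 := by rw [hαζ]; ring
      linear_combination this + hz - (4 * (d : ZMod p) ^ 2 * (i + 2)) * hi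
    rcases mul_eq_zero.1 h5 with h | h
    · linear_combination h
    · exact absurd (pow_eq_zero_iff (by norm_num) |>.1 h) (mul_ne_zero (mul_ne_zero h2 hd0) hi1)
  have hiff : IsSquare (α : ZMod p) ↔ IsSquare ζ := by
    constructor
    · intro h
      exact h.div (h2d.mul hsq)
    · intro h
      rw [hαζ]
      exact h.mul (h2d.mul hsq)
  have hpow : ζ ^ (p / 2) = (-1) ^ (p / 8) := by
    have : p / 2 = 2 * (2 * (p / 8)) := by omega
    rw [this, pow_mul, hζ2, pow_mul, hi]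
  have heul := ZMod.euler_criterion p hζ0
  -- Jacobi symbol of `|α|`
  have hn : α.natAbs % 2 = 1 := by omega
  have hj := jac_eval h8 hn (e := 2) (k := 2 * d)
    (by rw [Int.natCast_natAbs]; exact (abs_dvd _ _).2 ⟨α, by linarith⟩)
  rw [jacobiSym.at_two (Nat.odd_iff.2 hn), ← jacobiSym.legendreSym.to_jacobiSym] at hj
  have hm1 : IsSquare (-1 : ZMod p) := ZMod.exists_sq_eq_neg_one_iff.2 (by omega)
  have habs : IsSquare (((α.natAbs : ℕ) : ℤ) : ZMod p) ↔ IsSquare (α : ZMod p) := by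
    rw [Int.natCast_natAbs]
    rcases abs_choice α with h | h
    · rw [h]
    · rw [h]
      push_cast
      constructor
      · intro h1; simpa using hm1.mul h1
      · intro h1; simpa using hm1.mul h1
  have habs0 : (((α.natAbs : ℕ) : ℤ) : ZMod p) ≠ 0 := by
    rw [Int.natCast_natAbs]
    rcases abs_choice α with h | h
    · rw [h]; exact hα0
    · rw [h]; push_cast; exact neg_ne_zero.2 hα0
  have hl1 := legendreSym.eq_one_iff p habs0
  have hl0 : legendreSym p (α.natAbs : ℕ) ≠ 0 := fun h =>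
    habs0 ((legendreSym.eq_zero_iff p _).1 h)
  have hsq1 : J(2 * d | α.natAbs) ^ 2 = 1 := by
    rcases jacobiSym.trichotomy (2 * d) α.natAbs with h | h | h
    · rw [h] at hj; simp at hj; simp [hj] at hl0
    · rw [h]; norm_num
    · rw [h]; norm_num
  rw [hsq1, mul_one] at hj
  have hd8 := odd_sq_mod8 hd1
  have hsqn : α ^ 2 = ((α.natAbs : ℕ) : ℤ) ^ 2 := by rw [Int.natCast_natAbs, sq_abs]
  have hne : (-1 : ZMod p) ≠ 1 := fun h => h2 (by linear_combination -h)
  have hchi := ZMod.χ₈_nat_eq_if_mod_eight α.natAbs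
  generalize α.natAbs = n at *
  have hcases : n % 8 = 1 ∨ n % 8 = 7 ∨ n % 8 = 3 ∨ n % 8 = 5 := by omega
  have hn16 : ((n % 8 = 1 ∨ n % 8 = 7) → (n : ℤ) ^ 2 % 16 = 1) ∧
      ((n % 8 = 3 ∨ n % 8 = 5) → (n : ℤ) ^ 2 % 16 = 9) := by
    have h16 : (n : ℤ) % 16 = 1 ∨ (n : ℤ) % 16 = 3 ∨ (n : ℤ) % 16 = 5 ∨ (n : ℤ) % 16 = 7 ∨
      (n : ℤ) % 16 = 9 ∨ (n : ℤ) % 16 = 11 ∨ (n : ℤ) % 16 = 13 ∨ (n : ℤ) % 16 = 15 := by omega
    constructor <;> intro hh <;> rcases h16 with h | h | h | h | h | h | h | h <;>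
      first
        | omega
        | simp [pow_two, Int.mul_emod, h]
  by_cases hc : n % 8 = 1 ∨ n % 8 = 7
  · have h16 := hn16.1 hc
    have hk : Odd (p / 8) := Nat.odd_iff.2 (by omega)
    rw [hchi, if_neg (by omega), if_pos hc] at hj
    have := heul.1 (hiff.1 (habs.1 (hl1.1 hj)))
    rw [hpow, hk.neg_one_pow] at this
    exact hne this
  · have h16 := hn16.2 (by omega)
    have hk : Even (p / 8) := Nat.even_iff.2 (by omega)
    rw [hchi, if_neg (by omega), if_neg hc] at hj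
    have h6 : ζ ^ (p / 2) = 1 := by rw [hpow, hk.neg_one_pow]
    have := hl1.2 (habs.2 (hiff.2 (heul.2 h6)))
    rw [hj] at this
    norm_num at this

/-- If `p = 2 γ² - η²` with `γ = 1 mod 4` positive, then `p = x² + 32 y²`. -/
lemma form_of_gamma {p : ℕ} [hp : Fact p.Prime] (h8 : p % 8 = 1) {γ η : ℤ} (hγ : 0 < γ)
    (h4 : γ % 4 = 1) (hrep : (p : ℤ) = 2 * γ ^ 2 - η ^ 2) :
    ∃ x y : ℤ, (p : ℤ) = x ^ 2 + 32 * y ^ 2 := by
  obtain ⟨i, hi⟩ : IsSquare (-1 : ZMod p) := ZMod.exists_sq_eq_neg_one_iff.2 (by omega)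
  have hi2 : i ^ 2 = -1 := by rw [hi]; ring
  refine form_of_isSquare h8 hi2 ?_
  have h2 := two_ne_zero_zmod h8
  have hz : 2 * (γ : ZMod p) ^ 2 - (η : ZMod p) ^ 2 = 0 := by
    have := congrArg (Int.cast : ℤ → ZMod p) hrep
    push_cast at this
    rw [ZMod.natCast_self] at this
    exact this.symm
  have hγ0 : (γ : ZMod p) ≠ 0 := by
    intro h0
    have h1 : (η : ZMod p) = 0 := by
      rw [h0] at hz
      simpa using hz
    exact not_dvd_of_rep (A := 2) (B := -1) (by linarith)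
      ((ZMod.intCast_zmod_eq_zero_iff_dvd _ p).1 h0) ((ZMod.intCast_zmod_eq_zero_iff_dvd _ p).1 h1)
  have hs1 : IsSquare ((γ + η : ℤ) : ZMod p) := int_isSquare_of h8 (k := γ) ⟨γ - η, by linarith⟩
  have hs2 : IsSquare (γ : ZMod p) := by
    obtain ⟨n, rfl⟩ := Int.eq_ofNat_of_zero_le hγ.le
    have hn : n % 2 = 1 := by omega
    have hj := jac_eval h8 hn (e := -1) (k := η) ⟨2 * n, by linarith⟩
    rw [jacobiSym.at_neg_one (Nat.odd_iff.2 hn), ← jacobiSym.legendreSym.to_jacobiSym,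
      ZMod.χ₄_nat_one_mod_four (by omega)] at hj
    by_contra hcon
    have := (legendreSym.eq_neg_one_iff p).2 hcon
    rw [this] at hj
    nlinarith [sq_nonneg J(η | n)]
  push_cast at hs1
  set r : ZMod p := η / γ with hr
  have hηr : (η : ZMod p) = r * γ := by rw [hr]; field_simp
  have hr2 : r ^ 2 = 2 := by
    have : (r ^ 2 - 2) * (γ : ZMod p) ^ 2 = 0 := by
      rw [hηr] at hz; linear_combination -hz
    rcases mul_eq_zero.1 this with h | h
    · linear_combination h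
    · exact absurd (pow_eq_zero_iff (by norm_num) |>.1 h) hγ0
  have hr0 : r ≠ 0 := by
    rintro h; rw [h] at hr2; exact h2 (by linear_combination -hr2)
  have hr1 : 1 + r ≠ 0 := by
    intro h
    have : r = -1 := by linear_combination h
    rw [this] at hr2
    exact one_ne_zero (by linear_combination -hr2 : (1 : ZMod p) = 0)
  have hs3 : IsSquare (1 + r) := by
    have : 1 + r = ((γ : ZMod p) + η) / γ := by rw [hηr]; field_simp
    rw [this]; exact hs1.div hs2
  have hid : 1 + i = (r + 1 + i) ^ 2 / (r ^ 2 * (1 + r)) := by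
    field_simp
    linear_combination (i * r + i + r) * hr2 - hi2
  rw [hid]
  exact (IsSquare.sq _).div ((IsSquare.sq _).mul hs3)

end Pool.Agent.P.MP_5d883e_nt
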