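import Mathlib

/-! Second descent for `y^2 = x (x - 2) (x - p)`: each of the three everywhere locally soluble
non-trivial 2-coverings forces `-4` to be an eighth power modulo `p`. -/

set_option autoImplicit false

namespace Pool.Agent.P.MP_5d883e_nt

open NumberTheorySymbols

theorem jac_eq {p : ℕ} (hp8 : p % 8 = 1) {n : ℤ} {m k : ℕ} (h : n.natAbs = 2 ^ k * m)
    (hm : Odd m) : J(n | p) = J(p | m) := by
  have hpo : Odd p := Nat.odd_iff.2 (by omega)
  have h1 : J(-1 | p) = 1 := by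
    rw [jacobiSym.at_neg_one hpo, ZMod.χ₄_nat_one_mod_four (by omega)]
  have h2 : J(2 | p) = 1 := by
    rw [jacobiSym.at_two hpo, ZMod.χ₈_nat_eq_if_mod_eight]
    simp [show p % 2 = 1 by omega, hp8]
  have h3 : J((n.natAbs : ℤ) | p) = J(p | m) := by
    rw [h]
    push_cast
    rw [jacobiSym.mul_left, jacobiSym.pow_left, h2, one_pow, one_mul]
    exact (jacobiSym.quadratic_reciprocity_one_mod_four (by omega) hm).symm
  rcases Int.natAbs_eq n with e | e
  · rw [e]; exact h3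
  · rw [e, neg_eq_neg_one_mul, jacobiSym.mul_left, h1, one_mul]; exact h3

theorem jac_of_cong {m : ℕ} (hm : m ≠ 0) {a c z w : ℤ} (h : (m : ℤ) ∣ a * z ^ 2 - c * w ^ 2)
    (hw : IsCoprime w m) (hc : IsCoprime c m) : J(a | m) = J(c | m) := by
  have : NeZero m := ⟨hm⟩
  have e : J(a * z ^ 2 | m) = J(c * w ^ 2 | m) :=
    jacobiSym.mod_left' ((Int.emod_emod_of_dvd _ dvd_rfl).symm.trans
      ((Int.emod_emod_of_dvd _ dvd_rfl).trans (Int.emod_eq_emod_iff_emod_sub_eq_zero.2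
        (Int.emod_eq_zero_of_dvd h))))
  rw [jacobiSym.mul_left, jacobiSym.mul_left,
    jacobiSym.sq_one' (Int.isCoprime_iff_gcd_eq_one.1 hw), mul_one, jacobiSym.pow_left] at e
  have hc' : J(c | m) ≠ 0 := jacobiSym.ne_zero (Int.isCoprime_iff_gcd_eq_one.1 hc)
  rcases jacobiSym.trichotomy z m with h0 | h0 | h0 <;> rw [h0] at e
  · exact absurd (by simpa using e.symm) hc'
  · simpa using e
  · simpa using e

/-- `J(n | p) = 1` as soon as `p z^2 ≡ w^2` modulo `n`. -/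
theorem jac_one {p : ℕ} (hp8 : p % 8 = 1) {n z w : ℤ} (hn : n ≠ 0) (h : n ∣ p * z ^ 2 - w ^ 2)
    (hw : IsCoprime w n) : J(n | p) = 1 := by
  obtain ⟨k, m, hm, e⟩ := Nat.exists_eq_two_pow_mul_odd (Int.natAbs_ne_zero.2 hn)
  have hd : (m : ℤ) ∣ n := Int.natCast_dvd.2 (e ▸ Dvd.intro_left _ rfl)
  rw [jac_eq hp8 e hm, jac_of_cong (c := 1) (z := z) (w := w) hm.pos.ne'
    (by simpa using hd.trans h) (hw.of_isCoprime_of_dvd_right hd) isCoprime_one_left]
  simp

/-- `J(n | p) = χ₈ n` for odd `n` as soon as `p z^2 ≡ 2 w^2` modulo `n`. -/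
theorem jac_two {p : ℕ} (hp8 : p % 8 = 1) {n z w : ℤ} (hn : n % 2 = 1)
    (h : n ∣ p * z ^ 2 - 2 * w ^ 2) (hw : IsCoprime w n) :
    J(n | p) = if n % 8 = 1 ∨ n % 8 = 7 then 1 else -1 := by
  have hm : Odd n.natAbs := Int.natAbs_odd.2 (Int.odd_iff.2 hn)
  have hd : (n.natAbs : ℤ) ∣ n := Int.natAbs_dvd.2 dvd_rfl
  have h2 : IsCoprime (2 : ℤ) (n.natAbs : ℤ) :=
    (Int.isCoprime_two_left.2 (Int.odd_iff.2 hn)).of_isCoprime_of_dvd_right hd
  rw [jac_eq (k := 0) hp8 (by simp) hm, jac_of_cong (z := z) (w := w) hm.pos.ne'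
    (hd.trans h) (hw.of_isCoprime_of_dvd_right hd) h2, jacobiSym.at_two hm,
    ZMod.χ₈_nat_eq_if_mod_eight]
  have := Nat.odd_iff.1 hm
  split_ifs <;> first | rfl | omega

theorem sq_mod16 (x : ℤ) : (x % 2 = 0 ∧ x ^ 2 % 4 = 0 ∧ (x % 4 = 0 ∧ x ^ 2 % 16 = 0 ∨ x ^ 2 % 8 = 4)) ∨
    ((x % 8 = 1 ∨ x % 8 = 7) ∧ x ^ 2 % 16 = 1) ∨ ((x % 8 = 3 ∨ x % 8 = 5) ∧ x ^ 2 % 16 = 9) := by
  obtain ⟨k, r, h0, h1, rfl⟩ : ∃ k r : ℤ, 0 ≤ r ∧ r < 8 ∧ x = 8 * k + r :=
    ⟨x / 8, x % 8, by omega, by omega, by omega⟩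
  have e : (8 * k + r) ^ 2 = 16 * (4 * k ^ 2 + k * r) + r ^ 2 := by ring
  rw [e]
  interval_cases r <;> omega

theorem coprime_of {p : ℕ} (hp : p.Prime) {a b u w z : ℤ} (h : a * u ^ 2 + b * w ^ 2 = p * z ^ 2)
    (huz : IsCoprime u z) : IsCoprime u w := by
  refine isCoprime_of_prime_dvd (fun h0 => ?_) (fun l hl hu hw => ?_)
  · obtain ⟨rfl, rfl⟩ := h0
    have hz : z = 0 := by
      have : (p : ℤ) * z ^ 2 = 0 := by rw [← h]; ring
      simpa [hp.ne_zero] using this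
    rw [hz] at huz
    exact not_isCoprime_zero_zero huz
  · have h1 : l ^ 2 ∣ p * z ^ 2 := h ▸ dvd_add (Dvd.dvd.mul_left (pow_dvd_pow_of_dvd hu 2) _)
      (Dvd.dvd.mul_left (pow_dvd_pow_of_dvd hw 2) _)
    have h2 : IsCoprime (l ^ 2) (z ^ 2) := (huz.of_isCoprime_of_dvd_left hu).pow
    have h3 : l * l ∣ (p : ℤ) := by simpa [sq] using h2.dvd_of_dvd_mul_right h1
    exact hl.not_isUnit ((Nat.prime_iff_prime_int.1 hp).squarefree l h3)

theorem not_sq {p : ℕ} (hp : p.Prime) {u z : ℤ} (huz : IsCoprime u z) : u ^ 2 ≠ p * z ^ 2 := by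
  intro h
  have := coprime_of hp (a := 1) (b := 0) (w := 0) (by simpa using h) huz
  have hu : u ^ 2 = 1 := by
    rcases Int.isUnit_iff.1 (isCoprime_zero_right.1 this) with e | e <;> simp [e]
  have h1 : (p : ℤ) ∣ 1 := hu ▸ h ▸ Dvd.intro _ rfl
  exact (Nat.prime_iff_prime_int.1 hp).not_dvd_one h1

section
variable {p : ℕ} [hp : Fact p.Prime]

theorem sq_div {a b : ℤ} (ha : J(a | p) = 1) (hb : J(b | p) = 1) :
    (b : ZMod p) ≠ 0 ∧ ∃ s : ZMod p, (a : ZMod p) / b = s ^ 2 := by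
  obtain ⟨s, hs⟩ := ZMod.isSquare_of_jacobiSym_eq_one ha
  obtain ⟨t, ht⟩ := ZMod.isSquare_of_jacobiSym_eq_one hb
  refine ⟨fun h0 => ?_, s / t, by rw [hs, ht, div_pow, sq, sq]⟩
  rw [← jacobiSym.legendreSym.to_jacobiSym, (legendreSym.eq_zero_iff p b).2 h0] at hb
  exact zero_ne_one hb

theorem exists_i (hp8 : p % 8 = 1) : ∃ i : ZMod p, i ^ 2 = -1 := by
  obtain ⟨i, hi⟩ := (ZMod.exists_sq_eq_neg_one_iff (p := p)).2 (by omega)
  exact ⟨i, by rw [hi, sq]⟩

theorem two_ne (hp8 : p % 8 = 1) : (2 : ZMod p) ≠ 0 := by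
  intro h
  have : p ∣ 2 := (ZMod.natCast_eq_zero_iff 2 p).1 (by exact_mod_cast h)
  have := (Nat.prime_dvd_prime_iff_eq hp.out Nat.prime_two).1 this
  omega

theorem classA (hp8 : p % 8 = 1) {u v w z : ℤ} (huz : IsCoprime u z)
    (h1 : u ^ 2 - v ^ 2 = z ^ 2) (h2 : 2 * u ^ 2 - w ^ 2 = p * z ^ 2) :
    ∃ t : ZMod p, t ^ 8 = -4 := by
  have huw : IsCoprime u w := coprime_of hp.out (a := 2) (b := -1) (by linarith) huz
  have hu : u ≠ 0 := by
    rintro rfl
    have : z = 0 := by nlinarith [sq_nonneg v, sq_nonneg z]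
    rw [this] at huz
    exact not_isCoprime_zero_zero huz
  have hs : u + w ≠ 0 := by
    intro h
    have : w = -u := by linarith
    exact not_sq hp.out huz (by rw [← h2, this]; ring)
  have j1 : J(u | p) = 1 := jac_one hp8 (z := v) (w := w) hu
    ⟨(p - 2) * u, by linear_combination (-(p : ℤ)) * h1 + h2⟩ huw.symm
  have j2 : J(u + w | p) = 1 := jac_one hp8 (z := z) (w := u) hs
    ⟨u - w, by linear_combination -h2⟩ (by simpa using huw.mul_add_left_right 1)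
  obtain ⟨hu0, s, hs'⟩ := sq_div j2 j1
  obtain ⟨i, hi⟩ := exists_i hp8
  have h3 : (2 : ZMod p) * u ^ 2 - w ^ 2 = 0 := by
    have := congrArg (Int.cast : ℤ → ZMod p) h2
    simpa using this
  set r : ZMod p := w / u with hr
  have hr2 : r ^ 2 = 2 := by rw [hr]; field_simp; linear_combination -h3
  have hrs : 1 + r = s ^ 2 := by rw [← hs', hr]; push_cast; field_simp
  have hr0 : r ≠ 0 := fun h => two_ne hp8 (by rw [← hr2, h]; ring)
  have hs0 : s ≠ 0 := by
    intro h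
    have : r = -1 := by rw [h] at hrs; linear_combination hrs
    rw [this] at hr2
    exact one_ne_zero (α := ZMod p) (by linear_combination -hr2)
  refine ⟨(1 + (1 + i) / r) / s, ?_⟩
  have e : ((1 + (1 + i) / r) / s) ^ 2 = 1 + i := by
    field_simp
    linear_combination ((1 + i) * r ^ 2) * hrs + (1 - (1 + i) * (1 + r) ) * hr2 + hi
  calc _ = (((1 + (1 + i) / r) / s) ^ 2) ^ 4 := by ring
    _ = -4 := by rw [e]; linear_combination (i ^ 2 + 4 * i + 5) * hi

theorem classD (hp8 : p % 8 = 1) {q : ℤ} (hq : Prime q) (hpq : q + 2 = p) {u v w z : ℤ}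
    (huz : IsCoprime u z) (h1 : u ^ 2 + v ^ 2 = 2 * z ^ 2) (h2 : u ^ 2 + w ^ 2 = p * z ^ 2) :
    ∃ t : ZMod p, t ^ 8 = -4 := by
  have huw : IsCoprime u w := coprime_of hp.out (a := 1) (b := 1) (by linarith) huz
  have hnot : ¬ (u % 2 = 0 ∧ z % 2 = 0) := fun h =>
    Int.prime_two.not_isUnit (huz.isUnit_of_dvd' (Int.dvd_of_emod_eq_zero h.1)
      (Int.dvd_of_emod_eq_zero h.2))
  obtain ⟨k, hk⟩ : ∃ k : ℤ, (p : ℤ) = 8 * k + 1 := ⟨p / 8, by omega⟩
  have h2' : u ^ 2 + w ^ 2 = 8 * (k * z ^ 2) + z ^ 2 := by rw [h2, hk]; ring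
  have su := sq_mod16 u
  have sv := sq_mod16 v
  have sw := sq_mod16 w
  have sz := sq_mod16 z
  have hodd : u % 2 = 1 ∧ v % 2 = 1 ∧ z % 2 = 1 ∧ w % 4 = 0 := by omega
  have hvz : IsCoprime v z := by
    have : IsCoprime (u ^ 2) z := huz.pow_left
    have e : u ^ 2 = -v ^ 2 + z * (2 * z) := by linarith
    rw [e] at this
    exact (IsCoprime.pow_left_iff two_pos).1 
      ((IsCoprime.neg_left_iff _ _).1 (IsCoprime.of_add_mul_left_left this))
  have hq8 : q % 8 = 7 := by omega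
  have h3 : (w - v) * (w + v) = q * z ^ 2 := by
    have : q = p - 2 := by linarith
    rw [this]; linear_combination h2 - h1
  have hvw : IsCoprime (w - v) (w + v) := by
    refine isCoprime_of_prime_dvd (fun h0 => by omega) (fun l hl ha hb => ?_)
    have hl2 : IsCoprime l 2 :=
      ((Int.isCoprime_two_right.2 (Int.odd_iff.2 (by omega))).of_isCoprime_of_dvd_left ha)
    have hv : l ∣ v := hl2.dvd_of_dvd_mul_left (by
      have := dvd_sub hb ha
      rwa [show w + v - (w - v) = 2 * v by ring] at this)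
    have h4 : l * l ∣ q * z ^ 2 := h3 ▸ mul_dvd_mul ha hb
    have h5 : IsCoprime (l * l) (z ^ 2) := by
      simpa [sq] using (hvz.of_isCoprime_of_dvd_left hv).pow (m := 2) (n := 2)
    exact hl.not_isUnit (hq.squarefree l (h5.dvd_of_dvd_mul_right h4))
  have key : (w + v) % 8 = 1 ∨ (w + v) % 8 = 7 := by
    rcases hq.dvd_or_dvd (h3 ▸ Dvd.intro _ rfl : q ∣ (w - v) * (w + v)) with ⟨a, ha⟩ | ⟨a, ha⟩
    · have e : (w + v) * a = z ^ 2 := mul_left_cancel₀ hq.ne_zero (by rw [← h3, ha]; ring)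
      obtain ⟨s, hs⟩ := Int.sq_of_isCoprime
        (hvw.symm.of_isCoprime_of_dvd_right ⟨q, by rw [ha]; ring⟩) e
      have := sq_mod16 s
      omega
    · have e : (w - v) * a = z ^ 2 := mul_left_cancel₀ hq.ne_zero (by rw [← h3, ha]; ring)
      obtain ⟨s, hs⟩ := Int.sq_of_isCoprime
        (hvw.of_isCoprime_of_dvd_right ⟨q, by rw [ha]; ring⟩) e
      have := sq_mod16 s
      omega
  have hw : w ≠ 0 := by
    rintro rfl
    exact not_sq hp.out huz (by rw [← h2]; ring)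
  have j1 : J(w | p) = 1 := jac_one hp8 (z := z) (w := u) hw ⟨w, by linear_combination -h2⟩ huw
  have j2 : J(u + w | p) = 1 := by
    rw [jac_two hp8 (z := z) (w := u) (by omega) ⟨w - u, by linear_combination -h2⟩
      (by simpa using huw.mul_add_left_right 1), if_pos (by omega)]
  obtain ⟨hw0, s, hs'⟩ := sq_div j2 j1
  have h4 : (u : ZMod p) ^ 2 + w ^ 2 = 0 := by
    have := congrArg (Int.cast : ℤ → ZMod p) h2
    simpa using this
  have hi : ((u : ZMod p) / w) ^ 2 = -1 := by field_simp; linear_combination h4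
  have hs : s ^ 2 = 1 + (u : ZMod p) / w := by rw [← hs']; push_cast; field_simp; ring
  refine ⟨s, ?_⟩
  calc _ = (s ^ 2) ^ 4 := by ring
    _ = -4 := by
      rw [hs]
      generalize (u : ZMod p) / w = i at hi
      linear_combination (i ^ 2 + 4 * i + 5) * hi

theorem classAD (hp8 : p % 8 = 1) {q : ℤ} (hpq : q + 2 = p) {u v w z : ℤ}
    (huz : IsCoprime u z) (h1 : u ^ 2 + v ^ 2 = z ^ 2) (h2 : 2 * u ^ 2 + w ^ 2 = p * z ^ 2) :
    ∃ t : ZMod p, t ^ 8 = -4 := by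
  have huw : IsCoprime u w := coprime_of hp.out (a := 2) (b := 1) (by linarith) huz
  have hnot : ¬ (u % 2 = 0 ∧ z % 2 = 0) := fun h =>
    Int.prime_two.not_isUnit (huz.isUnit_of_dvd' (Int.dvd_of_emod_eq_zero h.1)
      (Int.dvd_of_emod_eq_zero h.2))
  obtain ⟨k, hk⟩ : ∃ k : ℕ, p = 8 * k + 1 := ⟨p / 8, by omega⟩
  have h2' : 2 * u ^ 2 + w ^ 2 = 8 * (k * z ^ 2) + z ^ 2 := by rw [h2, hk]; push_cast; ring
  have su := sq_mod16 u
  have sv := sq_mod16 v
  have sw := sq_mod16 w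
  have sz := sq_mod16 z
  have hodd : u % 4 = 0 ∧ z % 2 = 1 ∧ w % 2 = 1 := by omega
  have hvz : IsCoprime v z := by
    have : IsCoprime (u ^ 2) z := huz.pow_left
    have e : u ^ 2 = -v ^ 2 + z * z := by linarith
    rw [e] at this
    exact (IsCoprime.pow_left_iff two_pos).1 
      ((IsCoprime.neg_left_iff _ _).1 (IsCoprime.of_add_mul_left_left this))
  have hz8 : z % 8 = 1 ∨ z % 8 = 7 := by
    have := jac_two (p := 1) rfl (n := z) (z := w) (w := v) hodd.2.1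
      ⟨q * z, by
        have : q = p - 2 := by linarith
        rw [this]; push_cast; linear_combination h2 - 2 * h1⟩ hvz
    rw [jacobiSym.one_right] at this
    by_contra hc
    rw [if_neg hc] at this
    exact absurd this (by norm_num)
  have hu : u ≠ 0 := by
    rintro rfl
    have hz : IsCoprime w z := by
      obtain ⟨c, hc⟩ := (isCoprime_zero_left.1 huz).exists_left_inv
      exact ⟨0, c, by simpa using hc⟩
    exact not_sq hp.out hz (by rw [← h2]; ring)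
  have j1 : J(u | p) = 1 :=
    jac_one hp8 (z := z) (w := w) hu ⟨2 * u, by linear_combination -h2⟩ huw.symm
  have j2 := jac_two hp8 (n := w) (z := z) (w := u) hodd.2.2 ⟨w, by linear_combination -h2⟩ huw
  have j3 : J(w | p) = (-1) ^ k := by
    obtain ⟨j, hj⟩ : ∃ j : ℤ, z ^ 2 = 16 * j + 1 := ⟨z ^ 2 / 16, by omega⟩
    have e : (k : ℤ) * z ^ 2 = 16 * (k * j) + k := by rw [hj]; ring
    rcases Nat.even_or_odd k with hk2 | hk2
    · rw [hk2.neg_one_pow, j2, if_pos]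
      have := Nat.even_iff.1 hk2
      omega
    · rw [hk2.neg_one_pow, j2, if_neg]
      have := Nat.odd_iff.1 hk2
      omega
  rw [← jacobiSym.legendreSym.to_jacobiSym] at j1 j3
  have e1 : (u : ZMod p) ^ (p / 2) = 1 := by rw [← legendreSym.eq_pow, j1]; simp
  have e2 : (w : ZMod p) ^ (p / 2) = (-1) ^ k := by rw [← legendreSym.eq_pow, j3]; simp
  have hk4 : p / 2 = 4 * k := by omega
  have hk0 : k ≠ 0 := by
    rintro rfl
    exact hp.out.one_lt.ne' hk
  have hu0 : (u : ZMod p) ≠ 0 := fun h => by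
    rw [h, zero_pow (by omega)] at e1
    exact zero_ne_one e1
  obtain ⟨i, hi⟩ := exists_i hp8
  have h4 : (2 : ZMod p) * u ^ 2 + w ^ 2 = 0 := by
    have := congrArg (Int.cast : ℤ → ZMod p) h2
    simpa using this
  obtain ⟨r, hr⟩ : ∃ r : ZMod p, r = w / u := ⟨_, rfl⟩
  have hr2 : r ^ 2 = -2 := by rw [hr]; field_simp; linear_combination h4
  have hr0 : r ≠ 0 := fun h => two_ne hp8 (by rw [h] at hr2; linear_combination hr2)
  have hi0 : i ≠ 0 := fun h => one_ne_zero (α := ZMod p) (by rw [h] at hi; linear_combination hi)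
  have e3 : r ^ (p / 2) = (-1) ^ k := by rw [hr, div_pow, e1, e2, div_one]
  have h1i : (1 + i) ^ 4 = -4 := by linear_combination (i ^ 2 + 4 * i + 5) * hi
  have hr4 : r ^ 4 = 4 := by linear_combination (r ^ 2 - 2) * hr2
  have h40 : (4 : ZMod p) ≠ 0 := by rw [← hr4]; exact pow_ne_zero _ hr0
  have e4 : ((1 + i) / r) ^ 4 = -1 := by rw [div_pow, h1i, hr4]; field_simp
  have e5 : (1 + i) ^ (p / 2) = 1 := by
    have : 1 + i = (1 + i) / r * r := by field_simp
    rw [this, mul_pow, e3, hk4, pow_mul, e4, ← mul_pow]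
    simp
  have hne : 1 + i ≠ 0 := fun h => h40 (by rw [h] at h1i; linear_combination h1i)
  obtain ⟨s, hs⟩ := (ZMod.euler_criterion p hne).2 e5
  exact ⟨s, by rw [← h1i, hs]; ring⟩

end

end Pool.Agent.P.MP_5d883e_nt
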