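import Mathlib

/-! Quadratic residue lemmas for primes `p = 1 mod 8`. -/

namespace Pool.Agent.P.MP_5d883e_nt

/-- If `n * m` is a square then `n = s a^2`, with `s` squarefree dividing `m`. -/
lemma sqfree_part {n m w : ℕ} (hn : 0 < n) (h : n * m = w ^ 2) :
    ∃ s a : ℕ, Squarefree s ∧ n = s * a ^ 2 ∧ s ∣ m := by
  obtain ⟨s, a, hs0, ha0, hsa, hs⟩ := Nat.sq_mul_squarefree_of_pos hn
  refine ⟨s, a, hs, by rw [← hsa]; ring, ?_⟩
  have h1 : a ^ 2 ∣ w ^ 2 := ⟨s * m, by rw [← h, ← hsa]; ring⟩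
  obtain ⟨w', rfl⟩ := (Nat.pow_dvd_pow_iff (by norm_num)).1 h1
  have h2 : s * m = w' ^ 2 := by
    have : a ^ 2 * (s * m) = a ^ 2 * w' ^ 2 := by rw [← mul_pow, ← h, ← hsa]; ring
    exact Nat.eq_of_mul_eq_mul_left (by positivity) this
  have h3 : s ∣ w' := (hs.dvd_pow_iff_dvd (by norm_num : (2 : ℕ) ≠ 0)).1 ⟨m, h2.symm⟩
  obtain ⟨k, rfl⟩ := h3
  refine ⟨k ^ 2, ?_⟩
  have : s * m = s * (s * k ^ 2) := by rw [h2]; ring
  exact Nat.eq_of_mul_eq_mul_left hs0 this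

/-- Integer version. -/
lemma sqfree_part_int {X Y Z : ℤ} (hX : 0 < X) (h : X * Y = Z ^ 2) :
    ∃ (s : ℕ) (a : ℤ), Squarefree s ∧ X = s * a ^ 2 ∧ (s : ℤ) ∣ Y := by
  have h1 : X.natAbs * Y.natAbs = Z.natAbs ^ 2 := by
    rw [← Int.natAbs_mul, h, Int.natAbs_pow]
  obtain ⟨s, a, hs, h2, h3⟩ := sqfree_part (Int.natAbs_pos.2 hX.ne') h1
  refine ⟨s, a, hs, ?_, Int.natCast_dvd.2 h3⟩
  have : (X.natAbs : ℤ) = X := Int.natAbs_of_nonneg hX.le
  rw [← this, h2]; push_cast; ring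

lemma isSquare_of_primes {R : Type*} [CommSemiring R] (s : ℕ)
    (h : ∀ l : ℕ, l.Prime → l ∣ s → IsSquare (l : R)) : IsSquare (s : R) := by
  induction s using induction_on_primes with
  | zero => simp
  | one => simp
  | prime_mul l a hl ih =>
    push_cast
    exact (h l hl (Dvd.intro _ rfl)).mul (ih fun m hm hd => h m hm (hd.mul_left _))

/-- If `X Y` is a square and all common primes are squares mod `p`, then `X` is a square mod `p`. -/
lemma isSquare_of_mul {p : ℕ} [Fact p.Prime] (hp : p % 8 = 1) {X Y Z : ℤ} (h : X * Y = Z ^ 2)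
    (hl : ∀ l : ℕ, l.Prime → (l : ℤ) ∣ X → (l : ℤ) ∣ Y → IsSquare (l : ZMod p)) :
    IsSquare (X : ZMod p) := by
  have hm1 : IsSquare (-1 : ZMod p) := ZMod.exists_sq_eq_neg_one_iff.2 (by omega)
  have key : ∀ X Y : ℤ, 0 < X → X * Y = Z ^ 2 →
      (∀ l : ℕ, l.Prime → (l : ℤ) ∣ X → (l : ℤ) ∣ Y → IsSquare (l : ZMod p)) →
      IsSquare (X : ZMod p) := by
    intro X Y hX h hl
    obtain ⟨s, a, -, h2, h3⟩ := sqfree_part_int hX h
    have hs : IsSquare (s : ZMod p) := isSquare_of_primes s fun l hlp hd =>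
      hl l hlp (h2 ▸ (Int.natCast_dvd_natCast.2 hd).mul_right _)
        ((Int.natCast_dvd_natCast.2 hd).trans h3)
    rw [h2]; push_cast
    exact hs.mul (IsSquare.sq _)
  rcases lt_trichotomy X 0 with hX | hX | hX
  · have := key (-X) (-Y) (by omega) (by rw [← h]; ring)
      (fun l hlp h1 h2 => hl l hlp ((dvd_neg).1 h1) ((dvd_neg).1 h2))
    have h2 := hm1.mul this
    simpa using h2
  · simp [hX]
  · exact key X Y hX h hl

/-- Thue's lemma. -/
lemma thue {p : ℕ} [hp : Fact p.Prime] (r : ZMod p) :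
    ∃ x y : ℤ, (x ≠ 0 ∨ y ≠ 0) ∧ x ^ 2 < p ∧ y ^ 2 < p ∧ (x : ZMod p) = r * y := by
  set k := Nat.sqrt p with hk
  have hk1 : k * k ≤ p := Nat.sqrt_le p
  have hk2 : p < (k + 1) * (k + 1) := Nat.lt_succ_sqrt p
  have hk3 : k * k ≠ p := fun h => hp.out.not_isSquare ⟨k, h.symm⟩
  have hcard : Fintype.card (ZMod p) < Fintype.card (Fin (k + 1) × Fin (k + 1)) := by
    simpa [ZMod.card] using hk2
  obtain ⟨⟨a, b⟩, ⟨c, d⟩, hne, heq⟩ := Fintype.exists_ne_map_eq_of_card_lt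
    (fun z : Fin (k + 1) × Fin (k + 1) => ((z.1 : ℕ) : ZMod p) - r * ((z.2 : ℕ) : ZMod p)) hcard
  have ha := a.2; have hb := b.2; have hc := c.2; have hd := d.2
  have hkk : (k : ℤ) * k < p := by exact_mod_cast lt_of_le_of_ne hk1 hk3
  refine ⟨(a : ℕ) - (c : ℕ), (b : ℕ) - (d : ℕ), ?_, ?_, ?_, ?_⟩
  · by_contra hcon
    push Not at hcon
    apply hne
    ext
    · have := hcon.1; simp only; omega
    · have := hcon.2; simp only; omega
  · have h1 : (-(k : ℤ)) ≤ (a : ℕ) - (c : ℕ) := by omega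
    have h2 : ((a : ℕ) : ℤ) - (c : ℕ) ≤ k := by omega
    nlinarith
  · have h1 : (-(k : ℤ)) ≤ (b : ℕ) - (d : ℕ) := by omega
    have h2 : ((b : ℕ) : ℤ) - (d : ℕ) ≤ k := by omega
    nlinarith
  · push_cast
    simp only at heq
    linear_combination heq

lemma odd_sq_mod8 {a : ℤ} (h : a % 2 = 1) : a ^ 2 % 8 = 1 := by
  have : a % 8 = 1 ∨ a % 8 = 3 ∨ a % 8 = 5 ∨ a % 8 = 7 := by omega
  rcases this with h | h | h | h <;> simp [pow_two, Int.mul_emod, h]

lemma even_sq_mod4 {a : ℤ} (h : a % 2 = 0) : a ^ 2 % 4 = 0 := by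
  have : a % 4 = 0 ∨ a % 4 = 2 := by omega
  rcases this with h | h <;> simp [pow_two, Int.mul_emod, h]

/-- `p = α² + 8 d²`. -/
lemma rep_neg_two {p : ℕ} [hp : Fact p.Prime] (h8 : p % 8 = 1) :
    ∃ α d : ℤ, (p : ℤ) = α ^ 2 + 8 * d ^ 2 := by
  obtain ⟨r, hr⟩ := (ZMod.exists_sq_eq_neg_two_iff (p := p) (by omega)).2 (Or.inl h8)
  obtain ⟨x, y, hne, hx, hy, hxy⟩ := thue r
  have hd : (p : ℤ) ∣ x ^ 2 + 2 * y ^ 2 := by
    rw [← ZMod.intCast_zmod_eq_zero_iff_dvd]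
    push_cast
    rw [hxy]; linear_combination (-(y : ZMod p) ^ 2) * hr
  obtain ⟨k, hk⟩ := hd
  have hpos : 0 < x ^ 2 + 2 * y ^ 2 := by
    rcases hne with h | h
    · have := sq_pos_of_ne_zero h; positivity
    · have := sq_pos_of_ne_zero h; positivity
  have hp0 : (0 : ℤ) < p := by exact_mod_cast hp.out.pos
  have hk1 : 0 < k := by
    by_contra hcon
    have : (p : ℤ) * k ≤ 0 := mul_nonpos_of_nonneg_of_nonpos hp0.le (by omega)
    omega
  have hk2 : k < 3 := by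
    by_contra hcon
    have : (p : ℤ) * 3 ≤ p * k := mul_le_mul_of_nonneg_left (by omega) hp0.le
    omega
  have h8' : (p : ℤ) % 8 = 1 := by omega
  have key : ∀ u v : ℤ, (p : ℤ) = u ^ 2 + 2 * v ^ 2 → ∃ α d : ℤ, (p : ℤ) = α ^ 2 + 8 * d ^ 2 := by
    intro u v h
    have hu : u % 2 = 1 := by
      by_contra hcon
      have := even_sq_mod4 (a := u) (by omega)
      omega
    have h1 := odd_sq_mod8 hu
    have hv : v % 2 = 0 := by
      by_contra hcon
      have := odd_sq_mod8 (a := v) (by omega)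
      omega
    exact ⟨u, v / 2, by
      have : v = 2 * (v / 2) := by omega
      rw [h]; conv_lhs => rw [this]
      ring⟩
  have : k = 1 ∨ k = 2 := by omega
  rcases this with rfl | rfl
  · exact key x y (by linarith)
  · have hx2 : x % 2 = 0 := by
      by_contra hcon
      have := odd_sq_mod8 (a := x) (by omega)
      omega
    refine key y (x / 2) ?_
    have h3 : x = 2 * (x / 2) := by omega
    have h4 : x ^ 2 = 4 * (x / 2) ^ 2 := by conv_lhs => rw [h3]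
                                            ring
    linarith

/-- `p = 2 γ² - η²` with `γ > 0`. -/
lemma rep_two {p : ℕ} [hp : Fact p.Prime] (h8 : p % 8 = 1) :
    ∃ γ η : ℤ, 0 < γ ∧ (p : ℤ) = 2 * γ ^ 2 - η ^ 2 := by
  obtain ⟨r, hr⟩ := (ZMod.exists_sq_eq_two_iff (p := p) (by omega)).2 (Or.inl h8)
  obtain ⟨x, y, hne, hx, hy, hxy⟩ := thue r
  have hd : (p : ℤ) ∣ 2 * y ^ 2 - x ^ 2 := by
    rw [← ZMod.intCast_zmod_eq_zero_iff_dvd]
    push_cast
    rw [hxy]; linear_combination ((y : ZMod p) ^ 2) * hr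
  obtain ⟨k, hk⟩ := hd
  have hp0 : (0 : ℤ) < p := by exact_mod_cast hp.out.pos
  have hk1 : -1 < k := by
    by_contra hcon
    have : (p : ℤ) * k ≤ p * (-1) := mul_le_mul_of_nonneg_left (by omega) hp0.le
    nlinarith [sq_nonneg y]
  have hk2 : k < 2 := by
    by_contra hcon
    have : (p : ℤ) * 2 ≤ p * k := mul_le_mul_of_nonneg_left (by omega) hp0.le
    nlinarith [sq_nonneg x]
  have : k = 0 ∨ k = 1 := by omega
  rcases this with rfl | rfl
  · exfalso
    have h1 : x ^ 2 = 2 * y ^ 2 := by linarith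
    have hy0 : y ≠ 0 := by
      rcases hne with h | h
      · rintro rfl; simp at h1; exact h h1
      · exact h
    have h2 : IsSquare (2 : ℚ) := ⟨(x : ℚ) / y, by
      have : (y : ℚ) ≠ 0 := by exact_mod_cast hy0
      field_simp
      exact_mod_cast h1.symm⟩
    have h3 : IsSquare ((2 : ℕ) : ℚ) := by simpa using h2
    rw [Rat.isSquare_natCast_iff] at h3
    exact Nat.prime_two.not_isSquare h3
  · have hy0 : y ≠ 0 := by
      rintro rfl
      nlinarith [sq_nonneg x]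
    exact ⟨|y|, x, abs_pos.2 hy0, by rw [sq_abs]; linarith⟩

end Pool.Agent.P.MP_5d883e_nt
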