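import Pool.Agent.P.MP_5d883e_nt.Link

/-! The three non-trivial 2-coverings. -/

namespace Pool.Agent.P.MP_5d883e_nt

lemma cop_prime {a t : ℤ} (h : IsCoprime a t) {l : ℕ} (hl : l.Prime) (h1 : (l : ℤ) ∣ a)
    (h2 : (l : ℤ) ∣ t) : False := by
  have := h.isUnit_of_dvd' h1 h2
  rw [Int.isUnit_iff_natAbs_eq] at this
  simp at this
  exact hl.one_lt.ne' this

lemma prime_dvd_two {l : ℕ} (hl : l.Prime) (h : (l : ℤ) ∣ 2) : l = 2 := by
  have : l ∣ 2 := by exact_mod_cast h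
  exact (Nat.prime_dvd_prime_iff_eq hl Nat.prime_two).1 this

lemma prime_dvd_prime {l q : ℕ} (hl : l.Prime) (hq : q.Prime) (h : (l : ℤ) ∣ q) : l = q := by
  have : l ∣ q := by exact_mod_cast h
  exact (Nat.prime_dvd_prime_iff_eq hl hq).1 this

lemma nat_mod8_of_primes (s : ℕ) (hs : s ≠ 0) (h : ∀ l : ℕ, l.Prime → l ∣ s → l % 8 = 1) :
    s % 8 = 1 := by
  induction s using induction_on_primes with
  | zero => simp at hs
  | one => simp
  | prime_mul l a hl ih =>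
    have h1 := h l hl (Dvd.intro _ rfl)
    have h2 := ih (by rintro rfl; simp at hs) fun m hm hd => h m hm (hd.mul_left _)
    simp [Nat.mul_mod, h1, h2]

lemma mod8_of_mul {X Y Z : ℤ} (hX : 0 < X) (hodd : X % 2 = 1) (h : X * Y = Z ^ 2)
    (hl : ∀ l : ℕ, l.Prime → (l : ℤ) ∣ X → (l : ℤ) ∣ Y → l % 8 = 1) : X % 8 = 1 := by
  obtain ⟨s, a, hs, h2, h3⟩ := sqfree_part_int hX h
  have h4 : s % 8 = 1 := nat_mod8_of_primes s hs.ne_zero fun l hlp hd =>
    hl l hlp (h2 ▸ (Int.natCast_dvd_natCast.2 hd).mul_right _)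
      ((Int.natCast_dvd_natCast.2 hd).trans h3)
  have ha : a % 2 = 1 := by
    by_contra hcon
    have h5 := even_sq_mod4 (a := a) (by omega)
    have h6 : a ^ 2 % 2 = 0 := by omega
    rw [h2, Int.mul_emod, h6] at hodd
    simp at hodd
  have h5 := odd_sq_mod8 ha
  have h6 : (s : ℤ) % 8 = 1 := by omega
  rw [h2, Int.mul_emod, h5, h6]; norm_num

lemma split2_aux {X Y z : ℤ} (hX : 0 < X) (hY : 0 < Y) (hodd : X % 2 = 1) (h : X * Y = 2 * z ^ 2)
    (hl : ∀ l : ℕ, l.Prime → (l : ℤ) ∣ X → (l : ℤ) ∣ Y → l % 8 = 1) :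
    X % 8 = 1 ∧ (z % 2 = 1 → Y % 16 = 2) ∧ (z % 2 = 0 → Y % 8 = 0) := by
  have hY2 : Y % 2 = 0 := by
    by_contra hcon
    have h1 : Y % 2 = 1 := by omega
    have : (X * Y) % 2 = 1 := by simp [Int.mul_emod, hodd, h1]
    omega
  obtain ⟨E, rfl⟩ : ∃ E, Y = 2 * E := ⟨Y / 2, by omega⟩
  have hE : X * E = z ^ 2 := by linarith
  have hX8 := mod8_of_mul hX hodd hE fun l hlp h1 h2 => hl l hlp h1 (h2.mul_left _)
  refine ⟨hX8, fun hz => ?_, fun hz => ?_⟩
  · have h1 := odd_sq_mod8 hz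
    have hEo : E % 2 = 1 := by
      by_contra hcon
      have h2 : E % 2 = 0 := by omega
      have : (X * E) % 2 = 0 := by simp [Int.mul_emod, h2]
      omega
    have := mod8_of_mul (X := E) (Y := X) (Z := z) (by omega) hEo (by linarith)
      fun l hlp h1 h2 => hl l hlp h2 (h1.mul_left _)
    omega
  · have h1 := even_sq_mod4 hz
    have hX4 : X % 4 = 1 := by omega
    have : E % 4 = 0 := by
      have h2 : (X * E) % 4 = E % 4 := by simp [Int.mul_emod, hX4]
      omega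
    omega

lemma split2 {X Y z : ℤ} (hX : 0 < X) (hY : 0 < Y) (hodd : (X + Y) % 2 = 1)
    (h : X * Y = 2 * z ^ 2)
    (hl : ∀ l : ℕ, l.Prime → (l : ℤ) ∣ X → (l : ℤ) ∣ Y → l % 8 = 1) :
    (z % 2 = 1 → (X % 8 = 1 ∧ Y % 16 = 2) ∨ (Y % 8 = 1 ∧ X % 16 = 2)) ∧
    (z % 2 = 0 → (X % 8 = 1 ∧ Y % 8 = 0) ∨ (Y % 8 = 1 ∧ X % 8 = 0)) := by
  by_cases hx : X % 2 = 1
  · obtain ⟨h1, h2, h3⟩ := split2_aux hX hY hx h hl
    exact ⟨fun hz => Or.inl ⟨h1, h2 hz⟩, fun hz => Or.inl ⟨h1, h3 hz⟩⟩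
  · obtain ⟨h1, h2, h3⟩ := split2_aux (z := z) hY hX (by omega) (by linarith)
      fun l hlp h1 h2 => hl l hlp h2 h1
    exact ⟨fun hz => Or.inr ⟨h1, h2 hz⟩, fun hz => Or.inr ⟨h1, h3 hz⟩⟩

lemma pos_of_sum_mul {X Y : ℤ} (h1 : 0 < X + Y) (h2 : 0 < X * Y) : 0 < X ∧ 0 < Y := by
  rcases pos_and_pos_or_neg_and_neg_of_mul_pos h2 with h | h
  · exact h
  · omega

/-- From a primitive Pythagorean triple with hypotenuse `a > 0` and even leg `e`. -/
lemma pyth_mod {a e o : ℤ} (ha : 0 < a) (h : a ^ 2 - e ^ 2 = o ^ 2) (ho : o % 2 = 1)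
    (hc : ∀ l : ℕ, l.Prime → (l : ℤ) ∣ a → (l : ℤ) ∣ o → False) :
    a % 4 = 1 ∧ e % 4 = 0 := by
  have h1 := odd_sq_mod8 ho
  have ha2 : a % 2 = 1 := by
    by_contra hcon
    have h2 := even_sq_mod4 (a := a) (by omega)
    by_cases he : e % 2 = 0
    · have := even_sq_mod4 he; omega
    · have := odd_sq_mod8 (a := e) (by omega); omega
  have h2 := odd_sq_mod8 ha2
  have he2 : e % 2 = 0 := by
    by_contra hcon
    have := odd_sq_mod8 (a := e) (by omega); omega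
  have he4 : e % 4 = 0 := by
    by_contra hcon
    obtain ⟨k, rfl⟩ : ∃ k, e = 2 * k := ⟨e / 2, by omega⟩
    have := odd_sq_mod8 (a := k) (by omega)
    have h3 : (2 * k) ^ 2 = 4 * k ^ 2 := by ring
    omega
  have ho0 : 0 < o ^ 2 := sq_pos_of_ne_zero (by rintro rfl; simp at ho)
  have hpos : 0 < a - e := by nlinarith
  have := mod8_of_mul (X := a - e) (Y := a + e) (Z := o) hpos (by omega) (by linarith)
    fun l hlp h1 h2 => by
      exfalso
      have hl := Nat.prime_iff_prime_int.1 hlp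
      have h3 : (l : ℤ) ∣ 2 * a := by simpa [two_mul] using dvd_add h1 h2
      have h4 : (l : ℤ) ∣ o := hl.dvd_of_dvd_pow (n := 2)
        (by rw [← h, sq_sub_sq]; exact h2.mul_right _)
      rcases hl.dvd_or_dvd h3 with h5 | h5
      · have := prime_dvd_two hlp h5
        subst this
        omega
      · exact hc l hlp h5 h4
  omega

section B

variable {p : ℕ} [hp : Fact p.Prime]

lemma torsorB_aux (h8 : p % 8 = 1) (hq : (p - 2).Prime) {a b c t : ℤ}
    (h1 : t ^ 2 + b ^ 2 = p * a ^ 2) (h2 : t ^ 2 + c ^ 2 = 2 * a ^ 2) (hc : IsCoprime a t)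
    {i : ZMod p} (hi : i ^ 2 = -1) (hit : (b : ZMod p) = i * t)
    (hn1 : (b : ZMod p) + c ≠ 0) (hn2 : 2 * (a : ZMod p) - t - c ≠ 0) : IsSquare (1 + i) := by
  have hp2 := hp.out.two_le
  have hqp : ((p - 2 : ℕ) : ℤ) = p - 2 := by omega
  have hs2 : IsSquare ((2 : ℕ) : ZMod p) := by
    exact_mod_cast (ZMod.exists_sq_eq_two_iff (p := p) (by omega)).2 (Or.inl h8)
  have hsq : IsSquare (((p - 2 : ℕ)) : ZMod p) := by
    have := (ZMod.exists_sq_eq_neg_two_iff (p := p) (by omega)).2 (Or.inl h8)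
    rw [Nat.cast_sub hp2]
    simpa using this
  have F1 : IsSquare ((b + c : ℤ) : ZMod p) := by
    refine isSquare_of_mul h8 (Y := (p - 2) * (b - c)) (Z := (p - 2) * a)
      (by linear_combination ((p : ℤ) - 2) * (h1 - h2)) fun l hlp h3 h4 => ?_
    have hl := Nat.prime_iff_prime_int.1 hlp
    by_cases hlq : l = p - 2
    · rw [hlq]; exact hsq
    by_cases hl2 : l = 2
    · rw [hl2]; exact hs2
    exfalso
    have hnq : ¬ (l : ℤ) ∣ (p : ℤ) - 2 := fun h => hlq (prime_dvd_prime hlp hq (hqp ▸ h))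
    have h5 : (l : ℤ) ∣ b - c := (hl.dvd_or_dvd h4).resolve_left hnq
    have h6 : (l : ℤ) ∣ 2 * c := by
      have := dvd_sub h3 h5
      rwa [show b + c - (b - c) = 2 * c by ring] at this
    have h7 : (l : ℤ) ∣ c := (hl.dvd_or_dvd h6).resolve_left fun h => hl2 (prime_dvd_two hlp h)
    have h8 : (l : ℤ) ∣ ((p : ℤ) - 2) * a ^ 2 := by
      rw [show ((p : ℤ) - 2) * a ^ 2 = (b + c) * (b - c) by linear_combination h2 - h1]
      exact h3.mul_right _
    have h9 : (l : ℤ) ∣ a := hl.dvd_of_dvd_pow ((hl.dvd_or_dvd h8).resolve_left hnq)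
    have h10 : (l : ℤ) ∣ t := hl.dvd_of_dvd_pow (n := 2) (by
      rw [show t ^ 2 = 2 * a * a - c * c by linear_combination h2]
      exact dvd_sub (h9.mul_left _) (h7.mul_left _))
    exact cop_prime hc hlp h9 h10
  have F2 : IsSquare ((2 * a - t - c : ℤ) : ZMod p) := by
    refine isSquare_of_mul h8 (Y := 2 * a + t + c) (Z := t - c)
      (by linear_combination (-2 : ℤ) * h2) fun l hlp h3 h4 => ?_
    have hl := Nat.prime_iff_prime_int.1 hlp
    by_cases hl2 : l = 2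
    · rw [hl2]; exact hs2
    exfalso
    have hn2 : ¬ (l : ℤ) ∣ 2 := fun h => hl2 (prime_dvd_two hlp h)
    have h5 : (l : ℤ) ∣ 2 * (2 * a) := by
      have := dvd_add h3 h4
      rwa [show 2 * a - t - c + (2 * a + t + c) = 2 * (2 * a) by ring] at this
    have h6 : (l : ℤ) ∣ a :=
      (hl.dvd_or_dvd ((hl.dvd_or_dvd h5).resolve_left hn2)).resolve_left hn2
    have h7 : (l : ℤ) ∣ t - c := hl.dvd_of_dvd_pow (n := 2) (by
      rw [show (t - c) ^ 2 = (2 * a - t - c) * (2 * a + t + c) by linear_combination 2 * h2]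
      exact h3.mul_right _)
    have h8 : (l : ℤ) ∣ 2 * t := by
      have := dvd_add (dvd_sub h4 (h6.mul_left 2)) h7
      rwa [show 2 * a + t + c - 2 * a + (t - c) = 2 * t by ring] at this
    exact cop_prime hc hlp h6 ((hl.dvd_or_dvd h8).resolve_left hn2)
  push_cast at F1 F2
  have h2' : (t : ZMod p) ^ 2 + (c : ZMod p) ^ 2 = 2 * (a : ZMod p) ^ 2 := by
    exact_mod_cast congrArg (Int.cast : ℤ → ZMod p) h2
  have hid : 1 + i = ((t : ZMod p) - i * c + (i - 1) * a) ^ 2 /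
      ((2 * (a : ZMod p) - t - c) * (b + c)) := by
    rw [eq_div_iff (mul_ne_zero hn2 hn1), hit]
    linear_combination (-i) * h2' +
      (-(a : ZMod p) ^ 2 + 2 * a * c + 2 * a * t - c ^ 2 - c * t - t ^ 2) * hi
  rw [hid]
  exact (IsSquare.sq _).div (F2.mul F1)

lemma torsorB (h8 : p % 8 = 1) (hq : (p - 2).Prime) {a b c t : ℤ}
    (h1 : t ^ 2 + b ^ 2 = p * a ^ 2) (h2 : t ^ 2 + c ^ 2 = 2 * a ^ 2) (hc : IsCoprime a t) :
    ∃ x y : ℤ, (p : ℤ) = x ^ 2 + 32 * y ^ 2 := by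
  have h2z := two_ne_zero_zmod h8
  have h1' : (t : ZMod p) ^ 2 + (b : ZMod p) ^ 2 = 0 := by
    have := congrArg (Int.cast : ℤ → ZMod p) h1
    push_cast at this
    rw [ZMod.natCast_self] at this
    simpa using this
  have h2' : (t : ZMod p) ^ 2 + (c : ZMod p) ^ 2 = 2 * (a : ZMod p) ^ 2 := by
    exact_mod_cast congrArg (Int.cast : ℤ → ZMod p) h2
  have ht0 : (t : ZMod p) ≠ 0 := by
    intro h0
    have hb : (b : ZMod p) = 0 := by rw [h0] at h1'; simpa using h1'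
    obtain ⟨u, hu⟩ := (ZMod.intCast_zmod_eq_zero_iff_dvd _ p).1 h0
    obtain ⟨v, hv⟩ := (ZMod.intCast_zmod_eq_zero_iff_dvd _ p).1 hb
    have hp0 : (p : ℤ) ≠ 0 := by exact_mod_cast hp.out.ne_zero
    have h3 : (p : ℤ) * (p * (u ^ 2 + v ^ 2)) = p * a ^ 2 := by rw [← h1, hu, hv]; ring
    have h4 : (p : ℤ) ∣ a := (Nat.prime_iff_prime_int.1 hp.out).dvd_of_dvd_pow (n := 2)
      ⟨_, (mul_left_cancel₀ hp0 h3).symm⟩
    exact cop_prime hc hp.out h4 ⟨u, hu⟩
  set i : ZMod p := b / t with hi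
  have hit : (b : ZMod p) = i * t := by rw [hi]; field_simp
  have hi2 : i ^ 2 = -1 := by
    have : (i ^ 2 + 1) * (t : ZMod p) ^ 2 = 0 := by rw [hit] at h1'; linear_combination h1'
    rcases mul_eq_zero.1 this with h | h
    · linear_combination h
    · exact absurd (pow_eq_zero_iff (by norm_num) |>.1 h) ht0
  refine form_of_isSquare h8 hi2 ?_
  have key : ∀ c : ℤ, t ^ 2 + c ^ 2 = 2 * a ^ 2 → (b : ZMod p) + c ≠ 0 → IsSquare (1 + i) := by
    intro c h2 hn1
    by_cases hn2 : 2 * (a : ZMod p) - t - c = 0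
    · refine torsorB_aux h8 hq (a := -a) (by rw [h1]; ring) (by rw [h2]; ring) hc.neg_left
        hi2 hit hn1 ?_
      push_cast
      intro hn3
      have h2' : (t : ZMod p) ^ 2 + (c : ZMod p) ^ 2 = 2 * (a : ZMod p) ^ 2 := by
        exact_mod_cast congrArg (Int.cast : ℤ → ZMod p) h2
      have ha : (a : ZMod p) = 0 := by
        have : 2 * (2 * (a : ZMod p)) = 0 := by linear_combination hn2 - hn3
        exact (mul_eq_zero.1 ((mul_eq_zero.1 this).resolve_left h2z)).resolve_left h2z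
      have hct : (c : ZMod p) = -t := by rw [ha] at hn2; linear_combination -hn2
      rw [ha, hct] at h2'
      have : 2 * (t : ZMod p) ^ 2 = 0 := by linear_combination h2'
      exact ht0 (pow_eq_zero_iff (by norm_num) |>.1 ((mul_eq_zero.1 this).resolve_left h2z))
    · exact torsorB_aux h8 hq h1 h2 hc hi2 hit hn1 hn2
  by_cases hn : (b : ZMod p) + c = 0
  · refine key (-c) (by rw [← h2]; ring) ?_
    push_cast
    intro hn'
    have hb : (b : ZMod p) = 0 := by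
      have : 2 * (b : ZMod p) = 0 := by linear_combination hn + hn'
      exact (mul_eq_zero.1 this).resolve_left h2z
    rw [hb] at h1'
    exact ht0 (by simpa using h1')
  · exact key c h2 hn

end B

lemma torsorC {p : ℕ} [hp : Fact p.Prime] (h8 : p % 8 = 1) {a b c t : ℤ} (ha : 0 < a)
    (h1 : a ^ 2 - t ^ 2 = c ^ 2) (h2 : p * a ^ 2 - 2 * t ^ 2 = b ^ 2) (hc : IsCoprime a t) :
    ∃ x y : ℤ, (p : ℤ) = x ^ 2 + 32 * y ^ 2 := by
  obtain ⟨α, d, hrep⟩ := rep_neg_two h8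
  by_cases hd : d % 2 = 0
  · refine ⟨α, d / 2, ?_⟩
    have h3 : d = 2 * (d / 2) := by omega
    rw [hrep]; conv_lhs => rw [h3]
    ring
  exfalso
  have hd1 : d % 2 = 1 := by omega
  have h8' : (p : ℤ) % 8 = 1 := by omega
  have hα : α % 2 = 1 := by
    by_contra hcon
    have := even_sq_mod4 (a := α) (by omega)
    omega
  have ha2 : a % 2 = 1 := by
    by_contra hcon
    have h3 := even_sq_mod4 (a := a) (by omega)
    have ht : t % 2 = 1 := by
      by_contra hcon'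
      exact cop_prime hc Nat.prime_two (by omega) (by omega)
    have h4 := odd_sq_mod8 ht
    by_cases he : c % 2 = 0
    · have := even_sq_mod4 he; omega
    · have := odd_sq_mod8 (a := c) (by omega); omega
  have ha8 := odd_sq_mod8 ha2
  have hpa : (p * a ^ 2 : ℤ) % 8 = 1 := by simp [Int.mul_emod, h8', ha8]
  have hb2 : b % 2 = 1 := by
    by_contra hcon
    have := even_sq_mod4 (a := b) (by omega); omega
  have hb8 := odd_sq_mod8 hb2
  have ht2 : t % 2 = 0 := by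
    by_contra hcon
    have := odd_sq_mod8 (a := t) (by omega); omega
  have hc2 : c % 2 = 1 := by
    by_contra hcon
    have := even_sq_mod4 (a := c) (by omega)
    have := even_sq_mod4 ht2
    omega
  obtain ⟨ha4, ht4⟩ := pyth_mod ha h1 hc2 fun l hlp h3 h4 => by
    have hl := Nat.prime_iff_prime_int.1 hlp
    refine cop_prime hc hlp h3 (hl.dvd_of_dvd_pow (n := 2) ?_)
    rw [show t ^ 2 = a * a - c * c by linear_combination -h1]
    exact dvd_sub (h3.mul_left _) (h4.mul_left _)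
  obtain ⟨s, rfl⟩ : ∃ s, t = 4 * s := ⟨t / 4, by omega⟩
  have hpa2 : (p * a : ℤ) % 4 = 1 := by
    have : (p : ℤ) % 4 = 1 := by omega
    simp [Int.mul_emod, this, ha4]
  have hαb : (α * b) % 2 = 1 := by simp [Int.mul_emod, hα, hb2]
  have hdb : (d * b) % 2 = 1 := by simp [Int.mul_emod, hd1, hb2]
  obtain ⟨X, hX⟩ : ∃ X, p * a - (α * b + 16 * (d * s)) = 2 * X :=
    ⟨(p * a - (α * b + 16 * (d * s))) / 2, by omega⟩
  obtain ⟨Y, hY⟩ : ∃ Y, p * a + (α * b + 16 * (d * s)) = 2 * Y :=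
    ⟨(p * a + (α * b + 16 * (d * s))) / 2, by omega⟩
  have hz : (2 * (α * s) - d * b) % 2 = 1 := by omega
  have hXY : X * Y = 2 * (2 * (α * s) - d * b) ^ 2 := by
    have : 4 * (X * Y) = 4 * (2 * (2 * (α * s) - d * b) ^ 2) := by
      rw [show 4 * (X * Y) = (2 * X) * (2 * Y) by ring, ← hX, ← hY]
      linear_combination (p : ℤ) * h2 + (b ^ 2 + 32 * s ^ 2) * hrep
    linarith
  have hp0 : (0 : ℤ) < p := by exact_mod_cast hp.out.pos
  have hsum : X + Y = p * a := by linarith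
  have hz0 : 2 * (α * s) - d * b ≠ 0 := by omega
  obtain ⟨hX0, hY0⟩ := pos_of_sum_mul (X := X) (Y := Y) (by rw [hsum]; positivity)
    (by rw [hXY]; positivity)
  have := (split2 hX0 hY0 (by omega) hXY fun l hlp h3 h4 => by
    have hl := Nat.prime_iff_prime_int.1 hlp
    by_cases hlp' : l = p
    · rw [hlp']; exact h8
    exfalso
    have hnp : ¬ (l : ℤ) ∣ p := fun h => hlp' (prime_dvd_prime hlp hp.out h)
    have h5 : (l : ℤ) ∣ a := (hl.dvd_or_dvd (hsum ▸ dvd_add h3 h4)).resolve_left hnp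
    have hn2 : ¬ (l : ℤ) ∣ 2 := fun h => by
      have := prime_dvd_two hlp h
      subst this
      omega
    have h6 : (l : ℤ) ∣ 2 * (α * s) - d * b :=
      hl.dvd_of_dvd_pow ((hl.dvd_or_dvd (hXY ▸ h3.mul_right Y)).resolve_left hn2)
    have h7 : (l : ℤ) ∣ p * (4 * s) := by
      rw [show (p : ℤ) * (4 * s) = 2 * α * (2 * (α * s) - d * b) + 2 * d * (Y - X) by
        linear_combination (4 * s) * hrep + d * (hY - hX)]
      exact dvd_add (h6.mul_left _) ((dvd_sub h4 h3).mul_left _)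
    exact cop_prime hc hlp h5 ((hl.dvd_or_dvd h7).resolve_left hnp)).1 hz
  omega

lemma torsorD_aux {p : ℕ} [hp : Fact p.Prime] (h8 : p % 8 = 1) {a b c t γ η : ℤ} (ha : 0 < a)
    (hγ : 0 < γ) (hrep : (p : ℤ) = 2 * γ ^ 2 - η ^ 2)
    (h1 : a ^ 2 - t ^ 2 = b ^ 2) (h2 : 2 * a ^ 2 - c ^ 2 = p * t ^ 2) (hc : IsCoprime a t)
    {X Y z : ℤ} (hX : 2 * (γ * a) - η * c - p * t = 2 * X) (hY : 2 * (γ * a) - η * c + p * t = 2 * Y)
    (hz : γ * c - η * a = 2 * z) (hodd : (η * c) % 2 = 1) :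
    (z % 2 = 1 → (X % 8 = 1 ∧ Y % 16 = 2) ∨ (Y % 8 = 1 ∧ X % 16 = 2)) ∧
    (z % 2 = 0 → (X % 8 = 1 ∧ Y % 8 = 0) ∨ (Y % 8 = 1 ∧ X % 8 = 0)) := by
  have hp0 : (0 : ℤ) < p := by exact_mod_cast hp.out.pos
  have hXY : X * Y = 2 * z ^ 2 := by
    have : 4 * (X * Y) = 4 * (2 * z ^ 2) := by
      rw [show 4 * (X * Y) = (2 * X) * (2 * Y) by ring, ← hX, ← hY,
        show 4 * (2 * z ^ 2) = 2 * (2 * z) ^ 2 by ring, ← hz]
      linear_combination (p : ℤ) * h2 - (2 * a ^ 2 - c ^ 2) * hrep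
    linarith
  have hsum : X + Y = 2 * (γ * a) - η * c := by linarith
  have hM : 0 < 2 * (γ * a) - η * c := by
    have h3 : (η * c) ^ 2 < (2 * (γ * a)) ^ 2 := by
      have : (2 * (γ * a)) ^ 2 = (p + η ^ 2) * (p * t ^ 2 + c ^ 2) := by
        rw [← h2, hrep]; ring
      rw [this]
      have h4 : 0 < (p : ℤ) * (p * t ^ 2 + c ^ 2) := by
        apply mul_pos hp0; rw [← h2]; nlinarith
      nlinarith [mul_nonneg (sq_nonneg η) (mul_nonneg hp0.le (sq_nonneg t))]
    have := abs_lt_of_sq_lt_sq h3 (by positivity)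
    have := le_abs_self (η * c)
    omega
  have hz0 : z ≠ 0 := by
    rintro rfl
    have h3 : (p : ℤ) * a ^ 2 = p * (γ ^ 2 * t ^ 2) := by
      have h4 : γ * c = η * a := by linarith
      have : (γ * c) ^ 2 = (η * a) ^ 2 := by rw [h4]
      linear_combination a ^ 2 * hrep + γ ^ 2 * h2 + this
    have h4 := mul_left_cancel₀ hp0.ne' h3
    have h5 : IsUnit t := (hc.pow_left (m := 2)).isUnit_of_dvd' ⟨γ ^ 2 * t, by rw [h4]; ring⟩
      (dvd_refl t)
    have h6 : t ^ 2 = 1 := by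
      rcases Int.isUnit_iff.1 h5 with h | h <;> simp [h]
    have h7 : a = 1 := by
      have h7 : |b| < a := abs_lt_of_sq_lt_sq (by nlinarith) ha.le
      have h8 : |b| ^ 2 = b ^ 2 := sq_abs b
      have h9 := abs_nonneg b
      nlinarith
    rw [h6, h7] at h4
    have h8' : (p : ℤ) % 8 = 1 := by omega
    have := hp.out.two_le
    have h9 : γ ^ 2 = 1 := by linarith
    have h10 := sq_nonneg η
    omega
  obtain ⟨hX0, hY0⟩ := pos_of_sum_mul (X := X) (Y := Y) (by rw [hsum]; exact hM)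
    (by rw [hXY]; positivity)
  refine split2 hX0 hY0 (by omega) hXY fun l hlp h3 h4 => ?_
  have hl := Nat.prime_iff_prime_int.1 hlp
  by_cases hlp' : l = p
  · rw [hlp']; exact h8
  exfalso
  have hnp : ¬ (l : ℤ) ∣ p := fun h => hlp' (prime_dvd_prime hlp hp.out h)
  have h5 : (l : ℤ) ∣ t := (hl.dvd_or_dvd (a := p) (by
    rw [show (p : ℤ) * t = Y - X by linarith]; exact dvd_sub h4 h3)).resolve_left hnp
  have hn2 : ¬ (l : ℤ) ∣ 2 := fun h => by
    have := prime_dvd_two hlp h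
    subst this
    omega
  have h6 : (l : ℤ) ∣ z :=
    hl.dvd_of_dvd_pow ((hl.dvd_or_dvd (hXY ▸ h3.mul_right Y)).resolve_left hn2)
  have h7 : (l : ℤ) ∣ p * a := by
    rw [show (p : ℤ) * a = γ * (X + Y) + 2 * η * z by
      linear_combination a * hrep - γ * hsum + η * hz]
    exact dvd_add ((dvd_add h3 h4).mul_left _) (h6.mul_left _)
  exact cop_prime hc hlp ((hl.dvd_or_dvd h7).resolve_left hnp) h5

lemma torsorD {p : ℕ} [hp : Fact p.Prime] (h8 : p % 8 = 1) {a b c t : ℤ} (ha : 0 < a)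
    (h1 : a ^ 2 - t ^ 2 = b ^ 2) (h2 : 2 * a ^ 2 - c ^ 2 = p * t ^ 2) (hc : IsCoprime a t)
    (ht : t % 2 = 1) : ∃ x y : ℤ, (p : ℤ) = x ^ 2 + 32 * y ^ 2 := by
  obtain ⟨γ, η, hγ, hrep⟩ := rep_two h8
  refine form_of_gamma h8 hγ ?_ hrep
  have h8' : (p : ℤ) % 8 = 1 := by omega
  obtain ⟨ha4, -⟩ := pyth_mod (a := a) (e := b) (o := t) ha (by linarith) ht
    fun l hlp h3 h4 => cop_prime hc hlp h3 h4
  have hη : η % 2 = 1 := by
    by_contra hcon
    have := even_sq_mod4 (a := η) (by omega); omega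
  have hγ2 : γ % 2 = 1 := by
    by_contra hcon
    have := even_sq_mod4 (a := γ) (by omega)
    have := odd_sq_mod8 hη
    omega
  have ht8 := odd_sq_mod8 ht
  have hpt : (p * t ^ 2 : ℤ) % 8 = 1 := by simp [Int.mul_emod, h8', ht8]
  have hc2 : c % 2 = 1 := by
    by_contra hcon
    have := even_sq_mod4 (a := c) (by omega); omega
  have hηc : (η * c) % 2 = 1 := by simp [Int.mul_emod, hη, hc2]
  have hγc : (γ * c) % 2 = 1 := by simp [Int.mul_emod, hγ2, hc2]
  have hηa : (η * a) % 2 = 1 := by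
    have : a % 2 = 1 := by omega
    simp [Int.mul_emod, hη, this]
  have hpt1 : (p * t : ℤ) % 2 = 1 := by
    have : (p : ℤ) % 2 = 1 := by omega
    simp [Int.mul_emod, ht, this]
  have A := torsorD_aux h8 ha hγ hrep h1 h2 hc
    (X := (2 * (γ * a) - η * c - p * t) / 2) (Y := (2 * (γ * a) - η * c + p * t) / 2)
    (z := (γ * c - η * a) / 2) (by omega) (by omega) (by omega) hηc
  have B := torsorD_aux h8 ha hγ hrep h1 (c := -c) (by rw [← h2]; ring) hc
    (X := (2 * (γ * a) + η * c - p * t) / 2) (Y := (2 * (γ * a) + η * c + p * t) / 2)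
    (z := (-(γ * c) - η * a) / 2) (by rw [mul_neg]; omega) (by rw [mul_neg]; omega)
    (by rw [mul_neg]; omega) (by rw [mul_neg]; omega)
  have hg : (γ * a) % 4 = 1 := by
    generalize γ * a = g at *
    generalize η * c = u at *
    generalize γ * c = v at *
    generalize η * a = w at *
    generalize (p : ℤ) * t = T at *
    by_cases hz : ((v - w) / 2) % 2 = 1
    · have A' := A.1 hz
      have B' := B.2 (by omega)
      omega
    · have A' := A.2 (by omega)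
      have B' := B.1 (by omega)
      omega
  have : γ % 4 = 1 ∨ γ % 4 = 3 := by omega
  rcases this with h | h
  · exact h
  · simp [Int.mul_emod, h, ha4] at hg

end Pool.Agent.P.MP_5d883e_nt
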